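import Pool.Agent.H99.MS.TwoP
import Pool.Agent.H99.DR.Fin

/-!
The largest clusters of two boxes.
-/

set_option maxHeartbeats 400000

namespace Pool.Agent.H99.MS

open H99L Pool.Agent.H99.DR

theorem ed_of_not_out {x z : ℤ × ℤ} {D : ℤ} (h : ¬ Out x (2 * D) z) : ed x z ≤ 3 * D := by
  simp only [Out] at h
  push Not at h
  have hD : 0 < D := by omega
  have h1 : |((x.1 : ℝ) - z.1)| ≤ 2 * D := by
    rw [abs_le]
    constructor
    · have : z.1 ≤ x.1 + 2 * D := by omega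
      have : (z.1 : ℝ) ≤ x.1 + 2 * D := by exact_mod_cast this
      linarith
    · have : x.1 ≤ z.1 + 2 * D := by omega
      have : (x.1 : ℝ) ≤ z.1 + 2 * D := by exact_mod_cast this
      linarith
  have h2 : |((x.2 : ℝ) - z.2)| ≤ 2 * D := by
    rw [abs_le]
    constructor
    · have : z.2 ≤ x.2 + 2 * D := by omega
      have : (z.2 : ℝ) ≤ x.2 + 2 * D := by exact_mod_cast this
      linarith
    · have : x.2 ≤ z.2 + 2 * D := by omega
      have : (x.2 : ℝ) ≤ z.2 + 2 * D := by exact_mod_cast this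
      linarith
  have hD' : (0 : ℝ) < D := by exact_mod_cast hD
  apply le_of_sq_le_sq _ (by positivity)
  rw [ed_sq']
  have h3 : ((x.1 : ℝ) - z.1)^2 ≤ (2 * D)^2 := by
    rw [← sq_abs]
    gcongr
  have h4 : ((x.2 : ℝ) - z.2)^2 ≤ (2 * D)^2 := by
    rw [← sq_abs]
    gcongr
  nlinarith

/-- The diameter of a cluster is attained. -/
theorem diam_attained {n : ℕ} {F : Finset Edge} (hF : F ⊆ RE 0 n 0 n) {v : ℤ × ℤ}
    (hv : v ∈ bxV n) : ∃ x y, Reach (↑F) v x ∧ Reach (↑F) v y ∧ ed x y = diam F v := by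
  have hne : (clF n F v).Nonempty := ⟨v, mem_clF.mpr ⟨hv, mem_cluster.mpr (Reach.refl _ _)⟩⟩
  obtain ⟨h1, h2, h3⟩ := dp_spec hne
  refine ⟨_, _, mem_cluster.mp (mem_clF.mp h1).2, mem_cluster.mp (mem_clF.mp h2).2, ?_⟩
  rw [diam_eq hF hv]; rfl

/-- Nestedness of the largest clusters, deterministic part. -/
theorem nest_det {n m : ℕ} (hnm : n ≤ m) {F : Finset Edge} (hF : F ⊆ RE 0 m 0 m) {R Dd : ℤ}
    (hR : 1 ≤ R) (hD : 2 * R ≤ Dd) (hN : Nest (↑F ∩ ↑(RE 0 n 0 n)) (↑F) (2 * R) Dd)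
    {u v : ℤ × ℤ} (hu : Largest n (F ∩ RE 0 n 0 n) u) (hv : Largest m F v)
    (hbig : 5 * (Dd : ℝ) ≤ diam (F ∩ RE 0 n 0 n) u)
    (hno : ¬ ∃ x ∈ box n, ∃ y ∈ box n, y ∉ cluster (F ∩ RE 0 n 0 n) x ∧
      ∀ z ∈ box n, diam (F ∩ RE 0 n 0 n) z ≤ diam (F ∩ RE 0 n 0 n) x + 6 * Dd ∧
        diam (F ∩ RE 0 n 0 n) z ≤ diam (F ∩ RE 0 n 0 n) y + 6 * Dd) :
    cluster (F ∩ RE 0 n 0 n) u ⊆ cluster F v ∧
      ∀ z ∈ cluster F v, ∃ x ∈ cluster (F ∩ RE 0 n 0 n) u, ed x z ≤ 3 * Dd := by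
  set F0 : Finset Edge := F ∩ RE 0 n 0 n with hF0
  have hcoe : (↑F0 : Set Edge) = ↑F ∩ ↑(RE 0 (n : ℤ) 0 n) := by rw [hF0, Finset.coe_inter]
  have hF0n : F0 ⊆ RE 0 n 0 n := Finset.inter_subset_right
  have hF0F : (↑F0 : Set Edge) ⊆ ↑F := by rw [hcoe]; exact Set.inter_subset_left
  rw [← hcoe] at hN
  obtain ⟨N1, N2, N3⟩ := hN
  obtain ⟨hu1, hu2⟩ := hu
  obtain ⟨hv1, hv2⟩ := hv
  have hubm : u ∈ box m := by
    rw [mem_box, inR] at hu1 ⊢
    have : (n : ℤ) ≤ m := by exact_mod_cast hnm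
    omega
  obtain ⟨z, z', hz, hz', hzz⟩ := diam_attained hF0n hu1
  obtain ⟨y, y', hy, hy', hyy⟩ := diam_attained hF hv1
  have hDd : (0 : ℝ) < Dd := by
    have : 0 < Dd := by omega
    exact_mod_cast this
  have hout : ∀ p q : ℤ × ℤ, 5 * (Dd : ℝ) ≤ ed p q → Out p (3 * Dd) q := by
    intro p q hpq
    apply out_of_ed
    · omega
    · push_cast
      linarith
  have hBu : Big (↑F0) (2 * R) u := ⟨z, z', hz, hz', (hout z z' (by rw [hzz]; exact hbig)).anti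
    (by omega)⟩
  have hdm : diam F0 u ≤ diam F v := by
    rw [← hzz]
    refine le_trans ?_ (hv2 u hubm)
    exact ed_le_diam hF hubm (mem_cluster.mpr (hz.mono hF0F)) (mem_cluster.mpr (hz'.mono hF0F))
  have hBv : Big (↑F) (3 * Dd) v := ⟨y, y', hy, hy', hout y y' (by rw [hyy]; linarith)⟩
  obtain ⟨x, hx1, hx2⟩ := N3 v hBv
  have hxn : x ∈ box n := by
    obtain ⟨p, p', hp, hp', ho⟩ := hx2
    rw [mem_box]
    by_cases h : x = p
    · have : x ≠ p' := by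
        rintro rfl
        rw [← h] at ho
        simp only [Out] at ho
        omega
      exact reach_inR hF0n hp' this
    · exact reach_inR hF0n hp h
  have huv : Reach (↑F) v u := by
    by_contra hcon
    apply hno
    refine ⟨u, hu1, x, hxn, ?_, ?_⟩
    · intro h
      rw [mem_cluster] at h
      exact hcon (hx1.trans (h.mono hF0F).symm)
    · have hdx : diam F v ≤ diam F0 x + 6 * Dd := by
        obtain ⟨p, hp1, hp2⟩ := N2 x y hx2 (hx1.symm.trans hy)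
        obtain ⟨p', hp1', hp2'⟩ := N2 x y' hx2 (hx1.symm.trans hy')
        have k1 := ed_of_not_out hp2
        have k2 := ed_of_not_out hp2'
        have k3 := ed_le_diam hF0n hxn (mem_cluster.mpr hp1) (mem_cluster.mpr hp1')
        have k4 := ed_triangle y p y'
        have k5 := ed_triangle p p' y'
        have k6 := ed_comm y p
        rw [← hyy]
        linarith
      intro t ht
      have h1 := hu2 t ht
      constructor
      · linarith
      · linarith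
  refine ⟨?_, ?_⟩
  · intro w hw
    rw [mem_cluster] at hw ⊢
    exact huv.trans (hw.mono hF0F)
  · intro w hw
    rw [mem_cluster] at hw
    obtain ⟨p, hp1, hp2⟩ := N2 u w hBu (huv.symm.trans hw)
    exact ⟨p, mem_cluster.mpr hp1, ed_of_not_out hp2⟩

/-- The restriction of the configuration to a smaller box. -/
theorem pr_restrict {n m : ℕ} (hnm : n ≤ m) (A : Finset Edge → Prop) :
    Pr hf (RE 0 (m : ℤ) 0 m) (fun F => A (F ∩ RE 0 (n : ℤ) 0 n)) = Pr hf (RE 0 (n : ℤ) 0 n) A := by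
  have hsub : RE 0 (n : ℤ) 0 n ⊆ RE 0 (m : ℤ) 0 m :=
    RE_subset le_rfl (by exact_mod_cast hnm) le_rfl (by exact_mod_cast hnm)
  rw [Pr_local hsub (A := fun F => A (F ∩ RE 0 (n : ℤ) 0 n))]
  · apply Pr_congr
    intro F hF
    rw [Finset.inter_eq_left.mpr hF]
  · intro F _
    rw [Finset.inter_assoc, Finset.inter_self]

/-- The constant. -/
noncomputable def C0 : ℝ := CN + 1200 * (CCst + 8) + 4000

theorem C0_ge : 4000 ≤ C0 := by
  unfold C0 CN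
  have := CCst_ge
  have := N2_pos
  linarith

theorem near_prob {n w : ℕ} {η : ℝ} (hη : 0 < η) (hη1 : 1200 * η ≤ 1)
    (hw : (w : ℝ) + 1 ≤ η^16 * n) :
    Pr hf (RE 0 ((n + w : ℕ) : ℤ) 0 ((n + w : ℕ) : ℤ)) (fun F =>
      ∃ u v, Largest n (F ∩ RE 0 n 0 n) u ∧ Largest (n + w) F v ∧
      ¬ (cluster (F ∩ RE 0 n 0 n) u ⊆ cluster F v ∧
        ∀ z ∈ cluster F v, ∃ x ∈ cluster (F ∩ RE 0 n 0 n) u, ed x z ≤ 600 * η * n)) ≤
      C0 * η^(cz/192) := by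
  have hw0 : (0 : ℝ) ≤ w := Nat.cast_nonneg _
  have hn0 : (0 : ℝ) < n := by
    by_contra h
    push Not at h
    have : η^16 * n ≤ 0 := mul_nonpos_of_nonneg_of_nonpos (by positivity) h
    linarith
  have hn1 : 1 ≤ n := by exact_mod_cast hn0
  have hηn : 1 ≤ η * n := by
    have h1 : η^16 * n ≤ η * n := by
      apply mul_le_mul_of_nonneg_right _ hn0.le
      calc η^16 ≤ η^1 := pow_le_pow_of_le_one hη.le (by linarith) (by norm_num)
        _ = η := pow_one _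
    linarith
  obtain ⟨R, Dd, hR, hDR, hDd, hP⟩ := nestP hη (by linarith) hw
  set m : ℕ := n + w with hm
  have hnm : n ≤ m := by omega
  set S : Finset Edge := RE 0 (m : ℤ) 0 m with hS
  have p2 : Pr hf S (fun F => ∀ x y, Reach (↑(F ∩ RE 0 (n : ℤ) 0 n)) x y → ed x y < 1000 * η * n) ≤
      4 * (1000 * η) := by
    rw [hS, pr_restrict hnm (fun G => ∀ x y, Reach (↑G) x y → ed x y < 1000 * η * n)]
    exact small_diam (by positivity) (by linarith)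
  have p3 : Pr hf S (fun F => ∃ x ∈ box n, ∃ y ∈ box n, y ∉ cluster (F ∩ RE 0 (n : ℤ) 0 n) x ∧
      ∀ z ∈ box n, diam (F ∩ RE 0 (n : ℤ) 0 n) z ≤ diam (F ∩ RE 0 (n : ℤ) 0 n) x + 1200 * η * n ∧
        diam (F ∩ RE 0 (n : ℤ) 0 n) z ≤ diam (F ∩ RE 0 (n : ℤ) 0 n) y + 1200 * η * n) ≤
      (CCst + 8) * (1200 * η)^(cz/192) := by
    rw [hS, pr_restrict hnm (fun G => ∃ x ∈ box n, ∃ y ∈ box n, y ∉ cluster G x ∧
      ∀ z ∈ box n, diam G z ≤ diam G x + 1200 * η * n ∧ diam G z ≤ diam G y + 1200 * η * n)]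
    have := near_max hn1 (δ := 1200 * η) (by
      rw [div_le_iff₀ hn0]
      linarith) hη1
    rwa [prob_eq] at this
  have hsplit : ∀ F, F ⊆ S → (∃ u v, Largest n (F ∩ RE 0 n 0 n) u ∧ Largest m F v ∧
      ¬ (cluster (F ∩ RE 0 n 0 n) u ⊆ cluster F v ∧
        ∀ z ∈ cluster F v, ∃ x ∈ cluster (F ∩ RE 0 n 0 n) u, ed x z ≤ 600 * η * n)) →
      (¬ Nest (↑F ∩ ↑(RE 0 (n : ℤ) 0 n)) (↑F) (2 * R) Dd ∨
        (∀ x y, Reach (↑(F ∩ RE 0 (n : ℤ) 0 n)) x y → ed x y < 1000 * η * n)) ∨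
      (∃ x ∈ box n, ∃ y ∈ box n, y ∉ cluster (F ∩ RE 0 (n : ℤ) 0 n) x ∧
      ∀ z ∈ box n, diam (F ∩ RE 0 (n : ℤ) 0 n) z ≤ diam (F ∩ RE 0 (n : ℤ) 0 n) x + 1200 * η * n ∧
        diam (F ∩ RE 0 (n : ℤ) 0 n) z ≤ diam (F ∩ RE 0 (n : ℤ) 0 n) y + 1200 * η * n) := by
    rintro F hF ⟨u, v, hu, hv, hbad⟩
    by_contra hcon
    push Not at hcon
    obtain ⟨⟨h1, h2⟩, h3⟩ := hcon
    obtain ⟨u', hu', hLu⟩ := small_or (F := F ∩ RE 0 (n : ℤ) 0 n) Finset.inter_subset_right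
      (L := 1000 * η * n) (by positivity) (by push Not; exact h2)
    have h4 := hu.2 u' hu'
    obtain ⟨k1, k2⟩ := nest_det hnm hF (by exact_mod_cast hR) hDR h1 hu hv (by linarith) (by
      rintro ⟨x, hx, y, hy, hxy, hz⟩
      obtain ⟨z, hz1, hz2⟩ := h3 x hx y hy hxy
      obtain ⟨k1, k2⟩ := hz z hz1
      have := hz2 (by linarith)
      linarith)
    apply hbad
    refine ⟨k1, fun z hz => ?_⟩
    obtain ⟨x, hx1, hx2⟩ := k2 z hz
    exact ⟨x, hx1, by linarith⟩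
  have hc := cz_pos
  have e1 : η^cz ≤ η^(cz/192) := Real.rpow_le_rpow_of_exponent_ge hη (by linarith) (by linarith)
  have e2 : η ≤ η^(cz/192) := by
    calc η = η^(1 : ℝ) := (Real.rpow_one _).symm
      _ ≤ η^(cz/192) := Real.rpow_le_rpow_of_exponent_ge hη (by linarith) (by linarith [cz_le])
  have e3 : (1200 * η)^(cz/192) ≤ 1200 * η^(cz/192) := by
    rw [Real.mul_rpow (by norm_num) hη.le]
    apply mul_le_mul_of_nonneg_right _ (by positivity)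
    calc (1200 : ℝ)^(cz/192) ≤ 1200^(1 : ℝ) :=
          Real.rpow_le_rpow_of_exponent_le (by norm_num) (by linarith [cz_le])
      _ = 1200 := Real.rpow_one _
  have hCC := CCst_ge
  have hN2 := N2_pos
  have hCN : 0 ≤ CN := by unfold CN; linarith
  calc _ ≤ Pr hf S (fun F => (¬ Nest (↑F ∩ ↑(RE 0 (n : ℤ) 0 n)) (↑F) (2 * R) Dd ∨
        (∀ x y, Reach (↑(F ∩ RE 0 (n : ℤ) 0 n)) x y → ed x y < 1000 * η * n)) ∨
      (∃ x ∈ box n, ∃ y ∈ box n, y ∉ cluster (F ∩ RE 0 (n : ℤ) 0 n) x ∧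
      ∀ z ∈ box n, diam (F ∩ RE 0 (n : ℤ) 0 n) z ≤ diam (F ∩ RE 0 (n : ℤ) 0 n) x + 1200 * η * n ∧
        diam (F ∩ RE 0 (n : ℤ) 0 n) z ≤ diam (F ∩ RE 0 (n : ℤ) 0 n) y + 1200 * η * n)) :=
        Pr_mono okh hsplit
    _ ≤ (CN * η^cz + 4 * (1000 * η)) + (CCst + 8) * (1200 * η)^(cz/192) := by
        refine (Pr_or_le okh S _ _).trans (add_le_add ?_ p3)
        exact (Pr_or_le okh S _ _).trans (add_le_add hP p2)
    _ ≤ (CN * η^(cz/192) + 4 * (1000 * η^(cz/192))) + (CCst + 8) * (1200 * η^(cz/192)) := by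
        gcongr
    _ = C0 * η^(cz/192) := by unfold C0; ring

end Pool.Agent.H99.MS
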