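import Pool.Agent.H99.MS.Defs
import Pool.Agent.H99.MS.Near

set_option autoImplicit false

/-!
Stability of the law of the largest cluster under a small change of the box.
-/

set_option maxHeartbeats 400000

namespace Pool.Agent.H99.MS

open H99L Pool.Agent.H99.DR Filter Topology

theorem mean_eq (n : ℕ) (f : Finset Edge → ℝ) : mean n f = Ex hf (RE 0 (n : ℤ) 0 n) f := by
  rw [Ex_half]
  unfold mean
  rw [edges_eq]

/-- Inclusion of the clusters as closed sets. -/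
theorem body_sub {F G : Finset Edge} (hGF : G ⊆ F) {u v : ℤ × ℤ}
    (h : cluster G u ⊆ cluster F v) : body G u ⊆ body F v := by
  unfold body
  apply Set.union_subset_union (Set.image_mono h)
  intro z hz
  simp only [Set.mem_iUnion, Set.mem_ofPred_eq] at hz ⊢
  obtain ⟨e, ⟨he, hc⟩, hz⟩ := hz
  exact ⟨e, ⟨hGF he, h hc⟩, hz⟩

/-- Points of a cluster are close to its vertices. -/
theorem body_near {F : Finset Edge} {v : ℤ × ℤ} {p : ℂ} (hp : p ∈ body F v) :
    ∃ z ∈ cluster F v, dist p (pt z) ≤ 1 := by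
  rcases hp with ⟨z, hz, rfl⟩ | hp
  · exact ⟨z, hz, by rw [dist_self]; norm_num⟩
  · simp only [Set.mem_iUnion, Set.mem_ofPred_eq] at hp
    obtain ⟨e, ⟨he, hc⟩, hp⟩ := hp
    refine ⟨fst e, hc, ?_⟩
    have h1 : dist p (pt (fst e)) ≤ dist (pt (snd e)) (pt (fst e)) := by
      obtain ⟨a, b, ha, hb, hab, rfl⟩ := hp
      rw [dist_eq_norm, dist_eq_norm]
      have e1 : a • pt (fst e) + b • pt (snd e) - pt (fst e) = b • (pt (snd e) - pt (fst e)) := by
        have : a = 1 - b := by linarith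
        rw [this]
        module
      rw [e1, norm_smul, Real.norm_of_nonneg hb]
      have : b ≤ 1 := by linarith
      nlinarith [norm_nonneg (pt (snd e) - pt (fst e))]
    refine h1.trans ?_
    rw [dist_pt]
    apply le_of_sq_le_sq _ (by norm_num)
    rw [ed_sq']
    obtain ⟨x, y, b⟩ := e
    cases b
    · simp [fst, snd]
    · simp [fst, snd]

theorem norm_body {n : ℕ} {F : Finset Edge} (hF : F ⊆ RE 0 (n : ℤ) 0 n) {v : ℤ × ℤ}
    (hv : v ∈ box n) {p : ℂ} (hp : p ∈ body F v) : ‖p‖ ≤ 2 * n := by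
  have h1 : pt '' cluster F v ⊆ Metric.closedBall (0 : ℂ) (2 * n) := by
    rintro _ ⟨w, hw, rfl⟩
    have hwb : w ∈ bxV n := reach_box hF hv (mem_cluster.mp hw)
    rw [mem_bxV, inR] at hwb
    rw [mem_closedBall_zero_iff]
    have h2 := dist_pt w (0, 0)
    have h3 : pt (0, 0) = 0 := by
      unfold pt
      simp
      rfl
    rw [h3, dist_zero_right] at h2
    rw [h2]
    apply le_of_sq_le_sq _ (by positivity)
    rw [ed_sq']
    have k1 : (0 : ℝ) ≤ w.1 := by exact_mod_cast hwb.1.1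
    have k2 : (w.1 : ℝ) ≤ n := by exact_mod_cast hwb.1.2
    have k3 : (0 : ℝ) ≤ w.2 := by exact_mod_cast hwb.2.1
    have k4 : (w.2 : ℝ) ≤ n := by exact_mod_cast hwb.2.2
    push_cast
    nlinarith
  have h2 := (body_subset F v).trans (convexHull_min h1 (convex_closedBall _ _))
  exact mem_closedBall_zero_iff.mp (h2 hp)

/-- The Hausdorff distance of the rescaled clusters. -/
theorem shape_dist {n m : ℕ} (hn : 1 ≤ n) (hnm : n ≤ m) {F : Finset Edge}
    (hF : F ⊆ RE 0 (m : ℤ) 0 m) {u v : ℤ × ℤ} (hu : u ∈ box n) (hv : v ∈ box m) {ρ : ℝ}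
    (hρ : 0 ≤ ρ)
    (h1 : cluster (F ∩ RE 0 (n : ℤ) 0 n) u ⊆ cluster F v)
    (h2 : ∀ z ∈ cluster F v, ∃ x ∈ cluster (F ∩ RE 0 (n : ℤ) 0 n) u, ed x z ≤ ρ) :
    dist (shape n (F ∩ RE 0 (n : ℤ) 0 n) u) (shape m F v) ≤ (2 * ((m : ℝ) - n) + ρ + 1) / n := by
  have hn0 : (0 : ℝ) < n := by exact_mod_cast hn
  have hm0 : (0 : ℝ) < m := by
    have : (n : ℝ) ≤ m := by exact_mod_cast hnm
    linarith
  have hnm' : (0 : ℝ) ≤ (m : ℝ) - n := by
    have : (n : ℝ) ≤ m := by exact_mod_cast hnm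
    linarith
  -- division by `n` and by `m`
  have hdiv : ∀ (b : ℂ) (N : ℝ), ‖b‖ ≤ 2 * N → N ≤ m → dist (b / n) (b / m) ≤ 2 * ((m : ℝ) - n) / n := by
    intro b N hb hN
    rw [dist_eq_norm]
    have e1 : b / (n : ℂ) - b / (m : ℂ) = b * ((((m : ℝ) - n) / (n * m) : ℝ) : ℂ) := by
      have : (n : ℂ) ≠ 0 := by exact_mod_cast hn0.ne'
      have : (m : ℂ) ≠ 0 := by exact_mod_cast hm0.ne'
      push_cast
      field_simp
    rw [e1, norm_mul, Complex.norm_real, Real.norm_of_nonneg (by positivity)]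
    calc ‖b‖ * (((m : ℝ) - n) / (n * m)) ≤ (2 * m) * (((m : ℝ) - n) / (n * m)) := by
          apply mul_le_mul_of_nonneg_right _ (by positivity)
          linarith
      _ = 2 * ((m : ℝ) - n) / n := by field_simp
  rw [Metric.NonemptyCompacts.dist_eq]
  apply Metric.hausdorffDist_le_of_mem_dist (by positivity)
  · rintro _ ⟨b, hb, rfl⟩
    have hb' : b ∈ body (F ∩ RE 0 (n : ℤ) 0 n) u := hb
    refine ⟨b / m, ⟨b, body_sub Finset.inter_subset_left h1 hb', rfl⟩, ?_⟩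
    have h3 := hdiv b n (norm_body Finset.inter_subset_right hu hb') (by exact_mod_cast hnm)
    refine h3.trans ?_
    apply div_le_div_of_nonneg_right _ hn0.le
    linarith
  · rintro _ ⟨b, hb, rfl⟩
    have hb' : b ∈ body F v := hb
    obtain ⟨z, hz, hbz⟩ := body_near hb'
    obtain ⟨x, hx, hxz⟩ := h2 z hz
    refine ⟨pt x / n, ⟨pt x, Or.inl ⟨x, hx, rfl⟩, rfl⟩, ?_⟩
    have h3 := hdiv b m (norm_body hF hv hb') le_rfl
    have h4 : dist (b / (n : ℂ)) (pt x / (n : ℂ)) ≤ (ρ + 1) / n := by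
      rw [dist_eq_norm, ← sub_div, norm_div, Complex.norm_natCast, ← dist_eq_norm]
      apply div_le_div_of_nonneg_right _ hn0.le
      calc dist b (pt x) ≤ dist b (pt z) + dist (pt z) (pt x) := dist_triangle _ _ _
        _ ≤ 1 + ρ := by
            rw [dist_pt, ed_comm]
            linarith
        _ = ρ + 1 := by ring
    calc dist (b / (m : ℂ)) (pt x / (n : ℂ)) ≤ dist (b / (m : ℂ)) (b / (n : ℂ)) +
          dist (b / (n : ℂ)) (pt x / (n : ℂ)) := dist_triangle _ _ _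
      _ ≤ 2 * ((m : ℝ) - n) / n + (ρ + 1) / n := by
          rw [dist_comm (b / (m : ℂ))]
          linarith
      _ = (2 * ((m : ℝ) - n) + ρ + 1) / n := by ring

/-- The exceptional event for the sides `n` and `m`. -/
def Bad (n m : ℕ) (ρ : ℝ) (F : Finset Edge) : Prop :=
  ∃ u v, Largest n (F ∩ RE 0 (n : ℤ) 0 n) u ∧ Largest m F v ∧
    ¬ (cluster (F ∩ RE 0 (n : ℤ) 0 n) u ⊆ cluster F v ∧
      ∀ z ∈ cluster F v, ∃ x ∈ cluster (F ∩ RE 0 (n : ℤ) 0 n) u, ed x z ≤ ρ)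

/-- The exceptional event is unlikely, in terms of `δ = (m - n + 1) / n`. -/
theorem bad_prob {n m : ℕ} (hn : 1 ≤ n) (hnm : n ≤ m) {δ : ℝ} (hδ : δ = ((m : ℝ) - n + 1) / n) :
    Pr hf (RE 0 (m : ℤ) 0 m) (Bad n m (600 * δ^(1/16 : ℝ) * n)) ≤ C0 * δ^(cz/3072) := by
  have hn0 : (0 : ℝ) < n := by exact_mod_cast hn
  have hnm' : (0 : ℝ) ≤ (m : ℝ) - n := by
    have : (n : ℝ) ≤ m := by exact_mod_cast hnm
    linarith
  have hδ0 : 0 < δ := by rw [hδ]; positivity
  have hc := cz_pos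
  have hC := C0_ge
  set η : ℝ := δ^(1/16 : ℝ) with hη
  have hη0 : 0 < η := Real.rpow_pos_of_pos hδ0 _
  have hη16 : η^16 = δ := by
    rw [hη, ← Real.rpow_natCast, ← Real.rpow_mul hδ0.le]
    norm_num
  have hηc : η^(cz/192) = δ^(cz/3072) := by
    rw [hη, ← Real.rpow_mul hδ0.le]
    congr 1
    ring
  rw [← hηc]
  by_cases h : 1200 * η ≤ 1
  · obtain ⟨w, rfl⟩ := Nat.exists_eq_add_of_le hnm
    have hw : (w : ℝ) + 1 ≤ η^16 * n := by
      rw [hη16, hδ]
      push_cast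
      field_simp
      linarith
    exact near_prob hη0 h hw
  · push Not at h
    refine (Pr_le_one okh _ _).trans ?_
    have h1 : (1/1200 : ℝ)^(cz/192) ≤ η^(cz/192) :=
      Real.rpow_le_rpow (by norm_num) (by linarith) (by positivity)
    have h2 : (1/1200 : ℝ) ≤ (1/1200 : ℝ)^(cz/192) := by
      calc (1/1200 : ℝ) = (1/1200)^(1 : ℝ) := (Real.rpow_one _).symm
        _ ≤ (1/1200 : ℝ)^(cz/192) :=
          Real.rpow_le_rpow_of_exponent_ge (by norm_num) (by norm_num) (by linarith [cz_le])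
    nlinarith

/-- The compact sets inside a ball form a compact set. -/
theorem isCompact_ball : IsCompact {K : TopologicalSpace.NonemptyCompacts ℂ |
    (K : Set ℂ) ⊆ Metric.closedBall 0 2} := by
  apply TotallyBounded.isCompact_of_isClosed
  · exact TopologicalSpace.NonemptyCompacts.totallyBounded_subsets_of_totallyBounded
      (isCompact_closedBall (0 : ℂ) 2).totallyBounded
  · exact TopologicalSpace.NonemptyCompacts.isClosed_subsets_of_isClosed
      Metric.isClosed_closedBall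

theorem shape_mem {n : ℕ} (hn : 1 ≤ n) {F : Finset Edge} (hF : F ⊆ RE 0 (n : ℤ) 0 n) {v : ℤ × ℤ}
    (hv : v ∈ box n) : (shape n F v : Set ℂ) ⊆ Metric.closedBall 0 2 := by
  have hn0 : (0 : ℝ) < n := by exact_mod_cast hn
  rintro _ ⟨b, hb, rfl⟩
  have hb' : b ∈ body F v := hb
  rw [mem_closedBall_zero_iff]
  simp only [norm_div, Complex.norm_natCast]
  rw [div_le_iff₀ hn0]
  exact norm_body hF hv hb'

/-- Slow variation of the laws. -/
theorem slow {sel : ℕ → Finset Edge → ℤ × ℤ}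
    (hsel : ∀ n, 1 ≤ n → ∀ F, F ⊆ edges n → Largest n F (sel n F))
    {g : TopologicalSpace.NonemptyCompacts ℂ → ℝ} (hg : Continuous g) {ε : ℝ} (hε : 0 < ε) :
    ∃ δ > 0, ∀ n m : ℕ, 1 ≤ n → n ≤ m → (m : ℝ) - n + 1 ≤ δ * n →
      |mean n (fun F => g (shape n F (sel n F))) - mean m (fun F => g (shape m F (sel m F)))| ≤
        ε := by
  have hcomp := isCompact_ball
  obtain ⟨B, hB⟩ := hcomp.exists_bound_of_continuousOn hg.continuousOn
  have hB0 : 0 ≤ |B| := abs_nonneg B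
  have hB' : ∀ K : TopologicalSpace.NonemptyCompacts ℂ, (K : Set ℂ) ⊆ Metric.closedBall 0 2 →
      |g K| ≤ |B| := fun K hK => (hB K hK).trans (le_abs_self B)
  have huc := hcomp.uniformContinuousOn_of_continuous hg.continuousOn
  rw [Metric.uniformContinuousOn_iff] at huc
  obtain ⟨ρ, hρ, hgρ⟩ := huc (ε / 2) (by positivity)
  have hc := cz_pos
  have hC := C0_ge
  -- choice of `δ`
  have hlim : Tendsto (fun δ : ℝ => 3 * δ + 600 * δ^(1/16 : ℝ)) (𝓝[>] 0) (𝓝 0) := by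
    have h1 : ContinuousAt (fun δ : ℝ => 3 * δ + 600 * δ^(1/16 : ℝ)) 0 := by
      apply ContinuousAt.add (by fun_prop)
      apply ContinuousAt.mul continuousAt_const
      exact Real.continuousAt_rpow_const _ _ (Or.inr (by norm_num))
    have h2 : 3 * (0 : ℝ) + 600 * (0 : ℝ)^(1/16 : ℝ) = 0 := by
      rw [Real.zero_rpow (by norm_num)]
      norm_num
    have h3 := h1.tendsto
    rw [h2] at h3
    exact h3.mono_left nhdsWithin_le_nhds
  have hlim2 : Tendsto (fun δ : ℝ => 2 * |B| * (C0 * δ^(cz/3072))) (𝓝[>] 0) (𝓝 0) := by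
    have h1 : ContinuousAt (fun δ : ℝ => 2 * |B| * (C0 * δ^(cz/3072))) 0 := by
      apply ContinuousAt.mul continuousAt_const
      apply ContinuousAt.mul continuousAt_const
      exact Real.continuousAt_rpow_const _ _ (Or.inr (by positivity))
    have h2 : 2 * |B| * (C0 * (0 : ℝ)^(cz/3072)) = 0 := by
      rw [Real.zero_rpow (by positivity)]
      ring
    have h3 := h1.tendsto
    rw [h2] at h3
    exact h3.mono_left nhdsWithin_le_nhds
  obtain ⟨δ, ⟨hδ1, hδ2⟩, hδ0⟩ := ((hlim.eventually_lt_const hρ).and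
    (hlim2.eventually_le_const (show 0 < ε / 2 by positivity))).and
    self_mem_nhdsWithin |>.exists
  have hδ0' : 0 < δ := hδ0
  refine ⟨δ, hδ0', ?_⟩
  intro n m hn hnm hnmδ
  have hn0 : (0 : ℝ) < n := by exact_mod_cast hn
  have hnm' : (0 : ℝ) ≤ (m : ℝ) - n := by
    have : (n : ℝ) ≤ m := by exact_mod_cast hnm
    linarith
  set δ' : ℝ := ((m : ℝ) - n + 1) / n with hδ'
  have hδ'0 : 0 < δ' := by rw [hδ']; positivity
  have hδ'δ : δ' ≤ δ := by rw [hδ', div_le_iff₀ hn0]; exact hnmδ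
  have hbad := bad_prob hn hnm hδ'
  have hsub : RE 0 (n : ℤ) 0 n ⊆ RE 0 (m : ℤ) 0 m :=
    RE_subset le_rfl (by exact_mod_cast hnm) le_rfl (by exact_mod_cast hnm)
  have e1 : mean n (fun F => g (shape n F (sel n F))) =
      Ex hf (RE 0 (m : ℤ) 0 m) (fun F => g (shape n (F ∩ RE 0 (n : ℤ) 0 n)
        (sel n (F ∩ RE 0 (n : ℤ) 0 n)))) := by
    rw [mean_eq, Ex_local hsub (f := fun F => g (shape n (F ∩ RE 0 (n : ℤ) 0 n)
        (sel n (F ∩ RE 0 (n : ℤ) 0 n))))]
    · apply Ex_congr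
      intro F hF
      rw [Finset.inter_eq_left.mpr hF]
    · intro F _
      rw [Finset.inter_assoc, Finset.inter_self]
  rw [e1, mean_eq, ← Ex_sub]
  have hpt : ∀ F, F ⊆ RE 0 (m : ℤ) 0 m →
      |g (shape n (F ∩ RE 0 (n : ℤ) 0 n) (sel n (F ∩ RE 0 (n : ℤ) 0 n))) -
        g (shape m F (sel m F))| ≤ ε / 2 + 2 * |B| * ind (Bad n m (600 * δ'^(1/16 : ℝ) * n) F) := by
    intro F hF
    have hu := hsel n hn (F ∩ RE 0 (n : ℤ) 0 n) (by rw [edges_eq]; exact Finset.inter_subset_right)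
    have hv := hsel m (hn.trans hnm) F (by rw [edges_eq]; exact hF)
    have hK := shape_mem hn (F := F ∩ RE 0 (n : ℤ) 0 n) Finset.inter_subset_right hu.1
    have hK' := shape_mem (hn.trans hnm) hF hv.1
    by_cases hbF : Bad n m (600 * δ'^(1/16 : ℝ) * n) F
    · rw [ind_of hbF]
      have k1 := hB' _ hK
      have k2 := hB' _ hK'
      have k3 := abs_sub (g (shape n (F ∩ RE 0 (n : ℤ) 0 n) (sel n (F ∩ RE 0 (n : ℤ) 0 n))))
        (g (shape m F (sel m F)))
      linarith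
    · rw [ind_not_of hbF, mul_zero, add_zero]
      unfold Bad at hbF
      push Not at hbF
      have hgood : cluster (F ∩ RE 0 (n : ℤ) 0 n) (sel n (F ∩ RE 0 (n : ℤ) 0 n)) ⊆
          cluster F (sel m F) ∧ ∀ z ∈ cluster F (sel m F),
          ∃ x ∈ cluster (F ∩ RE 0 (n : ℤ) 0 n) (sel n (F ∩ RE 0 (n : ℤ) 0 n)),
            ed x z ≤ 600 * δ'^(1/16 : ℝ) * n := by
        exact hbF _ _ hu hv
      have hd := shape_dist hn hnm hF hu.1 hv.1 (by positivity) hgood.1 hgood.2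
      have hd2 : (2 * ((m : ℝ) - n) + 600 * δ'^(1/16 : ℝ) * n + 1) / n < ρ := by
        have h1 : (2 * ((m : ℝ) - n) + 600 * δ'^(1/16 : ℝ) * n + 1) / n ≤
            3 * δ' + 600 * δ'^(1/16 : ℝ) := by
          rw [div_le_iff₀ hn0, add_mul]
          have : δ' * n = (m : ℝ) - n + 1 := by
            rw [hδ']; field_simp
          nlinarith
        have h2 : δ'^(1/16 : ℝ) ≤ δ^(1/16 : ℝ) := Real.rpow_le_rpow hδ'0.le hδ'δ (by norm_num)
        linarith
      have := hgρ _ hK _ hK' (lt_of_le_of_lt hd hd2)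
      rw [Real.dist_eq] at this
      exact this.le
  have habs : |Ex hf (RE 0 (m : ℤ) 0 m) (fun F =>
      g (shape n (F ∩ RE 0 (n : ℤ) 0 n) (sel n (F ∩ RE 0 (n : ℤ) 0 n))) -
        g (shape m F (sel m F)))| ≤
      Ex hf (RE 0 (m : ℤ) 0 m) (fun F => ε / 2 + 2 * |B| *
        ind (Bad n m (600 * δ'^(1/16 : ℝ) * n) F)) := by
    rw [abs_le]
    constructor
    · rw [neg_le, ← neg_one_mul, ← Ex_mul_left]
      apply Ex_mono okh
      intro F hF
      have := (abs_le.mp (hpt F hF)).1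
      linarith
    · apply Ex_mono okh
      intro F hF
      exact (abs_le.mp (hpt F hF)).2
  refine habs.trans ?_
  rw [Ex_add, Ex_const, Ex_mul_left]
  have h5 : Ex hf (RE 0 (m : ℤ) 0 m) (fun F => ind (Bad n m (600 * δ'^(1/16 : ℝ) * n) F)) =
      Pr hf (RE 0 (m : ℤ) 0 m) (Bad n m (600 * δ'^(1/16 : ℝ) * n)) := rfl
  rw [h5]
  have h6 : δ'^(cz/3072) ≤ δ^(cz/3072) := Real.rpow_le_rpow hδ'0.le hδ'δ (by positivity)
  have h7 : 2 * |B| * Pr hf (RE 0 (m : ℤ) 0 m) (Bad n m (600 * δ'^(1/16 : ℝ) * n)) ≤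
      2 * |B| * (C0 * δ^(cz/3072)) := by
    apply mul_le_mul_of_nonneg_left _ (by positivity)
    refine hbad.trans ?_
    apply mul_le_mul_of_nonneg_left h6 (by linarith)
  linarith

/-- Slow variation and convergence along a slowly increasing sequence give convergence. -/
theorem conv_of_slow {M : ℕ → ℝ} (hM : ∀ ε > 0, ∃ δ > 0, ∀ n m : ℕ, 1 ≤ n → n ≤ m →
    (m : ℝ) - n + 1 ≤ δ * n → |M n - M m| ≤ ε) {k : ℕ → ℕ} (hk : Tendsto k atTop atTop)
    (hk1 : Tendsto (fun i => (k (i + 1) : ℝ) / k i) atTop (𝓝 1)) {L : ℝ}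
    (hL : Tendsto (fun i => M (k i)) atTop (𝓝 L)) : Tendsto M atTop (𝓝 L) := by
  rw [Metric.tendsto_atTop]
  intro ε hε
  obtain ⟨δ, hδ, hMδ⟩ := hM (ε / 3) (by positivity)
  -- beyond the index `I` everything is fine
  have h1 : ∀ᶠ i in atTop, 1 ≤ k i := hk.eventually_ge_atTop 1
  have h2 : ∀ᶠ i in atTop, (k (i + 1) : ℝ) / k i < 1 + δ :=
    hk1.eventually_lt_const (by linarith)
  have h3 : ∀ᶠ i in atTop, |M (k i) - L| < ε / 3 := by
    have := (Metric.tendsto_atTop.mp hL) (ε / 3) (by positivity)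
    obtain ⟨N, hN⟩ := this
    filter_upwards [eventually_ge_atTop N] with i hi
    have := hN i hi
    rwa [Real.dist_eq] at this
  obtain ⟨I, hI⟩ := eventually_atTop.mp ((h1.and h2).and h3)
  refine ⟨k I, fun n hn => ?_⟩
  -- the last index with `k i ≤ n`
  have hex : ∃ j, I ≤ j ∧ n < k j := by
    obtain ⟨j, hj1, hj2⟩ := ((eventually_ge_atTop I).and (hk.eventually_gt_atTop n)).exists
    exact ⟨j, hj1, hj2⟩
  classical
  set j := Nat.find hex with hj
  obtain ⟨hj1, hj2⟩ := Nat.find_spec hex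
  have hjI : I < j := by
    rcases hj1.lt_or_eq with h | h
    · exact h
    · exfalso
      rw [← hj] at h hj2
      rw [← h] at hj2
      omega
  obtain ⟨i, hi⟩ := Nat.exists_eq_succ_of_ne_zero (by omega : j ≠ 0)
  have hiI : I ≤ i := by omega
  have hin : k i ≤ n := by
    by_contra hcon
    push Not at hcon
    have := Nat.find_min hex (m := i) (by omega)
    exact this ⟨hiI, hcon⟩
  obtain ⟨⟨k1, k2⟩, k3⟩ := hI i hiI
  have hki : (0 : ℝ) < k i := by exact_mod_cast k1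
  have hjn : n < k (i + 1) := by
    rw [← hj, hi] at hj2
    exact hj2
  have k4 : |M (k i) - M n| ≤ ε / 3 := by
    apply hMδ _ _ k1 hin
    rw [div_lt_iff₀ hki] at k2
    have : (n : ℝ) + 1 ≤ k (i + 1) := by exact_mod_cast hjn
    linarith
  rw [Real.dist_eq]
  have k5 : |M n - L| ≤ |M n - M (k i)| + |M (k i) - L| := abs_sub_le _ _ _
  rw [abs_sub_comm] at k4
  linarith

end Pool.Agent.H99.MS
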