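import Pool.Agent.H99.DR.Defs
import Pool.Agent.H99.DR.Fin

set_option autoImplicit false

/-!
Expectations for critical percolation in a box, and clusters as random compact sets.
-/

namespace Pool.Agent.H99.MS

open Pool.Agent.H99.DR

/-- Expectation of `f` for critical bond percolation in `Λ_n`: the set `F` of open edges is uniformly
distributed on the subsets of `edges n`. -/
noncomputable def mean (n : ℕ) (f : Finset Edge → ℝ) : ℝ :=
  (∑ F ∈ (edges n).powerset, f F) / 2 ^ (edges n).card

theorem finite_cluster (F : Finset Edge) (v : ℤ × ℤ) : (cluster F v).Finite := by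
  have h := H99L.clu_finite F v
  apply h.subset
  intro w hw
  exact mem_cluster.mp hw

theorem isCompact_body (F : Finset Edge) (v : ℤ × ℤ) : IsCompact (body F v) := by
  unfold body
  apply IsCompact.union
  · exact ((finite_cluster F v).image pt).isCompact
  · apply Set.Finite.isCompact_biUnion
    · exact F.finite_toSet.subset (fun e he => he.1)
    · intro e _
      rw [segment_eq_image_lineMap]
      exact isCompact_Icc.image (by fun_prop)

theorem nonempty_body (F : Finset Edge) (v : ℤ × ℤ) : (body F v).Nonempty :=
  ⟨pt v, Or.inl ⟨v, SimpleGraph.Reachable.refl _, rfl⟩⟩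

/-- The cluster of `v`, divided by `n`, as a nonempty compact subset of the plane. The space of
these subsets carries the Hausdorff distance. -/
noncomputable def shape (n : ℕ) (F : Finset Edge) (v : ℤ × ℤ) :
    TopologicalSpace.NonemptyCompacts ℂ :=
  ⟨⟨(fun z : ℂ => z / n) '' body F v, (isCompact_body F v).image (by fun_prop)⟩,
    (nonempty_body F v).image _⟩

end Pool.Agent.H99.MS
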