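import Pool.Agent.H99.MS.Lin
import Pool.Agent.H99.L.Plan4

/-!
An open edge at the top of a domain which joins two large clusters of the domain.
-/

set_option maxHeartbeats 400000

namespace H99L

open Finset

/-- A horizontal dual walk. -/
theorem dwalk_h {G : Set Edg} {y : ℤ} (n : ℕ) (x : ℤ)
    (h : ∀ t, x < t → t ≤ x + n → ((t, y, false) : Edg) ∈ G) : DReach G (x, y) (x + n, y) := by
  induction n with
  | zero => simpa using DReach.refl _ _
  | succ n ih =>
    have h1 := ih (fun t ht1 ht2 => h t ht1 (by push_cast; omega))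
    refine h1.trans (DAdj.reach ⟨(x + n + 1, y, false), h _ (by omega) (by push_cast; omega), ?_⟩)
    left
    rw [dsrc_false, dtgt_mk]
    refine ⟨by rw [add_sub_cancel_right], ?_⟩
    push_cast
    rw [add_assoc]

/-- A vertical dual walk. -/
theorem dwalk_v {G : Set Edg} {x : ℤ} (n : ℕ) (y : ℤ)
    (h : ∀ t, y < t → t ≤ y + n → ((x, t, true) : Edg) ∈ G) : DReach G (x, y) (x, y + n) := by
  induction n with
  | zero => simpa using DReach.refl _ _
  | succ n ih =>
    have h1 := ih (fun t ht1 ht2 => h t ht1 (by push_cast; omega))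
    refine h1.trans (DAdj.reach ⟨(x, y + n + 1, true), h _ (by omega) (by push_cast; omega), ?_⟩)
    left
    rw [dsrc_true, dtgt_mk]
    refine ⟨by rw [add_sub_cancel_right], ?_⟩
    push_cast
    rw [add_assoc]

/-- Both endpoints of `e` are connected at distance `R` in `F ∩ D`, but not to each other. -/
def MG (D : Set Edg) (R : ℤ) (e : Edg) (F : Finset Edg) : Prop :=
  ¬ Reach (↑F ∩ D) (src e) (tgt e) ∧
    (∃ z, Out (src e) R z ∧ Reach (↑F ∩ D) (src e) z) ∧
    (∃ z, Out (src e) R z ∧ Reach (↑F ∩ D) (tgt e) z)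

/-- Lexicographic order: by height, then by the first coordinate. -/
def lexr (z q : Vtx) : Prop := z.2 < q.2 ∨ (z.2 = q.2 ∧ z.1 ≤ q.1)

/-- The domain lies below the line through the edge. -/
structure TopDom (D : Set Edg) (x0 y0 r : ℤ) : Prop where
  a1 : ∀ x y, ((x, y, false) : Edg) ∈ RE (x0 - r) (x0 + r) (y0 - r) (y0 + r) → y < y0 →
    ((x, y, false) : Edg) ∈ D
  a2 : ∀ x y, ((x, y, true) : Edg) ∈ RE (x0 - r) (x0 + r) (y0 - r) (y0 + r) → y < y0 →
    ((x, y, true) : Edg) ∈ D
  b1 : ∀ x y, y0 ≤ y → ((x, y, false) : Edg) ∉ D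
  b2 : ∀ x y, y0 < y → ((x, y, true) : Edg) ∉ D
  b3 : ∀ x, x0 ≤ x → ((x, y0, true) : Edg) ∉ D

/-- The planar part of the estimate: a merging edge gives an extreme point of a large dual
cluster. -/
theorem mg_dual {D : Set Edg} {x0 y0 r k R : ℤ} (hD : TopDom D x0 y0 r) (hr : 5 * k + 3 ≤ r)
    (hk : 1 ≤ k) (hR : r ≤ R) {F T : Finset Edg} (hT : dmp T = Rg (fun _ => True) (x0, y0 - 1) (5 * k))
    (heF : ((x0, y0, true) : Edg) ∈ F) (hMG : MG D R (x0, y0, true) F) :
    LT' lexr (Rg (fun _ => True) (x0, y0 - 1) (5 * k)) (x0, y0 - 1) (4 * k) (dmp (T \ F)) := by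
  classical
  obtain ⟨hn, ⟨z1, hz1, hr1⟩, ⟨z2, hz2, hr2⟩⟩ := hMG
  rw [src_mk] at hn hz1 hr1 hz2
  rw [tgt_true] at hn hr2
  set BX : Finset Edg := RE (x0 - r) (x0 + r) (y0 - r) (y0 + r) with hBX
  set Fe : Set Edg := (↑F ∩ D) ∩ ↑BX with hFe
  have heD : ((x0, y0, true) : Edg) ∉ D := hD.b3 x0 le_rfl
  have heB : ((x0, y0, true) : Edg) ∈ BX := by rw [hBX, mem_RE_true]; omega
  have heFe : ((x0, y0, true) : Edg) ∉ Fe := fun h => heD h.1.2
  have hFeB : Fe ⊆ ↑BX := fun e h => h.2
  have hu : ∃ w ∈ bdR (x0 - r) (x0 + r) (y0 - r) (y0 + r), Reach Fe (src (x0, y0, true)) w := by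
    obtain ⟨w, h1, h2, h3⟩ := first_exit (a := x0 - r) (b := x0 + r) (c := y0 - r) (d := y0 + r)
      (u := (x0, y0)) (by simp only [inR]; omega) hr1 (by simp only [Out] at hz1; omega)
    exact ⟨w, ⟨h1, h2⟩, h3⟩
  have hv : ∃ w ∈ bdR (x0 - r) (x0 + r) (y0 - r) (y0 + r), Reach Fe (tgt (x0, y0, true)) w := by
    obtain ⟨w, h1, h2, h3⟩ := first_exit (a := x0 - r) (b := x0 + r) (c := y0 - r) (d := y0 + r)
      (u := (x0 + 1, y0)) (by simp only [inR]; omega) hr2 (by simp only [Out] at hz2; omega)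
    exact ⟨w, ⟨h1, h2⟩, h3⟩
  have huv : ¬ Reach Fe (src (x0, y0, true)) (tgt (x0, y0, true)) := by
    intro h
    exact hn (h.mono (fun e h => h.1))
  have hsep := dual_sep hFeB heB heFe hu hv
  obtain ⟨g, hg, harm⟩ := dual_arm hFeB heB heFe hu hv huv (f0 := (x0, y0 - 1)) (f1 := (x0, y0))
    (Or.inl ⟨rfl, rfl⟩)
  set G : Set Edg := (↑BX \ Fe) \ {((x0, y0, true) : Edg)} with hG
  rw [dsrc_true, dtgt_mk] at hsep
  -- edges outside the domain are in `G`
  have hout : ∀ e : Edg, e ∈ BX → e ∉ D → e ≠ (x0, y0, true) → e ∈ G := by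
    intro e h1 h2 h3
    exact ⟨⟨h1, fun h => h2 h.1.2⟩, h3⟩
  -- faces near the edge above the line are connected to `(x0, y0)`
  have habove : ∀ x y, x0 - r < x → x < x0 + r → y0 ≤ y → y < y0 + r →
      DReach G (x, y) (x0, y0) := by
    intro x y hx1 hx2 hy1 hy2
    have s1 : DReach G (x, y0) (x, y) := by
      have := dwalk_v (G := G) (x := x) (y - y0).toNat y0 (by
        intro t ht1 ht2
        apply hout
        · rw [hBX, mem_RE_true]; omega
        · exact hD.b2 _ _ ht1
        · simp only [ne_eq, Prod.mk.injEq, not_and]; intro _ h; omega)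
      rwa [show y0 + ((y - y0).toNat : ℤ) = y by omega] at this
    have s2 : DReach G (x, y0) (x0, y0) := by
      have hfm : ∀ t, x0 - r < t → t < x0 + r → ((t, y0, false) : Edg) ∈ G := by
        intro t ht1 ht2
        apply hout
        · rw [hBX, mem_RE_false]; omega
        · exact hD.b1 _ _ le_rfl
        · simp
      rcases le_total x x0 with h | h
      · have := dwalk_h (G := G) (y := y0) (x0 - x).toNat x (by
          intro t ht1 ht2
          apply hfm <;> omega)
        rwa [show x + ((x0 - x).toNat : ℤ) = x0 by omega] at this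
      · have := dwalk_h (G := G) (y := y0) (x - x0).toNat x0 (by
          intro t ht1 ht2
          apply hfm <;> omega)
        rw [show x0 + ((x - x0).toNat : ℤ) = x by omega] at this
        exact this.symm
    exact s1.symm.trans s2
  -- confinement
  have hconf : ∀ z : Vtx, DReach G (x0, y0 - 1) z → x0 - r < z.1 → z.1 < x0 + r →
      y0 - r < z.2 → z.2 < y0 + r → lexr z (x0, y0 - 1) := by
    rintro ⟨x, y⟩ hz h1 h2 h3 h4
    simp only at h1 h2 h3 h4
    by_contra hcon
    simp only [lexr] at hcon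
    push Not at hcon
    apply hsep
    refine hz.trans ?_
    by_cases hy : y0 ≤ y
    · exact habove x y h1 h2 hy h4
    · have hyy : y = y0 - 1 := by omega
      have hx := hcon.2 hyy
      subst hyy
      have s1 : DReach G (x, y0 - 1) (x, y0) := by
        refine DAdj.reach ⟨(x, y0, true), ?_, Or.inl ⟨rfl, rfl⟩⟩
        apply hout
        · rw [hBX, mem_RE_true]; omega
        · exact hD.b3 _ hx.le
        · simp only [ne_eq, Prod.mk.injEq, not_and]; intro h; omega
      exact s1.trans (habove x y0 h1 h2 le_rfl (by omega))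
  -- edges between confined faces
  have hstep : ∀ ε : Edg, ε ∈ G → lexr (dtgt ε) (x0, y0 - 1) → ε ∈ T → ε ∈ (T \ F : Finset Edg) := by
    rintro ⟨x, y, bo⟩ h1 h2 h3
    rw [Finset.mem_sdiff]
    refine ⟨h3, fun hF => ?_⟩
    apply h1.1.2
    refine ⟨⟨hF, ?_⟩, h1.1.1⟩
    simp only [dtgt_mk, lexr] at h2
    cases bo
    · exact hD.a1 _ _ h1.1.1 (by omega)
    · exact hD.a2 _ _ h1.1.1 (by omega)
  have hTG : (↑(T \ F : Finset Edg) : Set Edg) ⊆ G := by
    intro ε hε
    rw [Finset.mem_coe, Finset.mem_sdiff] at hε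
    refine ⟨⟨?_, fun h => hε.2 h.1.1⟩, fun h => hε.2 (h ▸ heF)⟩
    have : dl ε ∈ dmp T := by rw [mem_dmp, Equiv.symm_apply_apply]; exact hε.1
    rw [hT, mem_Rg] at this
    obtain ⟨x, y, bo⟩ := ε
    cases bo
    · rw [dl_f, mem_RE_true] at this
      rw [Finset.mem_coe, hBX, mem_RE_false]; simp only at this; omega
    · rw [dl_t, mem_RE_false] at this
      rw [Finset.mem_coe, hBX, mem_RE_true]; simp only at this; omega
  constructor
  · -- the arm
    obtain ⟨w, hw1, hw2, hw3⟩ := first_exit (a := x0 - (4 * k)) (b := x0 + (4 * k))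
      (c := y0 - 1 - (4 * k)) (d := y0 - 1 + (4 * k)) (u := (x0, y0 - 1))
      (by simp only [inR]; omega) (reach_dl.mpr harm)
      (by simp only [outF, Set.mem_ofPred_eq] at hg; omega)
    refine ⟨w, by simp only [Out]; omega, ?_⟩
    have key : ∀ v, Reach (dl '' G ∩ ↑(RE (x0 - (4 * k)) (x0 + (4 * k)) (y0 - 1 - (4 * k))
        (y0 - 1 + (4 * k)))) (x0, y0 - 1) v →
        Reach (↑(dmp (T \ F)) ∩ ↑(Rg (fun _ => True) (x0, y0 - 1) (5 * k))) (x0, y0 - 1) v := by
      intro v hv
      induction hv with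
      | refl => exact Reach.refl _ _
      | @tail v v' hv' hs ih =>
        refine ih.trans (Adj.reach ?_)
        have hv'' : DReach G (x0, y0 - 1) v := reach_dl.mp (Reach.mono (fun e h => h.1) hv')
        obtain ⟨ε', ⟨⟨ε, hεG, rfl⟩, hεR⟩, hcase⟩ := hs
        refine ⟨dl ε, ⟨?_, ?_⟩, hcase⟩
        · rw [Finset.mem_coe, mem_dmp, Equiv.symm_apply_apply]
          have hεT : ε ∈ T := by
            have : dl ε ∈ dmp T := by
              rw [hT, mem_Rg]
              refine ⟨?_, trivial⟩
              obtain ⟨x, y, bo⟩ := ε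
              cases bo
              · rw [dl_f] at hεR ⊢
                rw [Finset.mem_coe, mem_RE_true] at hεR
                rw [mem_RE_true]; simp only; omega
              · rw [dl_t] at hεR ⊢
                rw [Finset.mem_coe, mem_RE_false] at hεR
                rw [mem_RE_false]; simp only; omega
            rwa [mem_dmp, Equiv.symm_apply_apply] at this
          apply hstep ε hεG _ hεT
          have hreach : DReach G (x0, y0 - 1) (dtgt ε) := by
            rw [src_dl, tgt_dl] at hcase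
            rcases hcase with ⟨h1, h2⟩ | ⟨h1, h2⟩
            · rw [← h1] at hv''
              exact hv''.trans (DAdj.reach ⟨ε, hεG, Or.inl ⟨rfl, rfl⟩⟩)
            · rw [← h2] at hv''
              exact hv''
          have hin : (x0 - (4 * k) ≤ (dtgt ε).1 ∧ (dtgt ε).1 ≤ x0 + (4 * k)) ∧
              (y0 - 1 - (4 * k) ≤ (dtgt ε).2 ∧ (dtgt ε).2 ≤ y0 - 1 + (4 * k)) := by
            obtain ⟨x, y, bo⟩ := ε
            rw [Finset.mem_coe] at hεR
            cases bo
            · rw [dl_f, mem_RE_true] at hεR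
              simp only [dtgt_mk]; omega
            · rw [dl_t, mem_RE_false] at hεR
              simp only [dtgt_mk]; omega
          exact hconf _ hreach (by omega) (by omega) (by omega) (by omega)
        · rw [Finset.mem_coe, mem_Rg]
          refine ⟨?_, trivial⟩
          obtain ⟨x, y, bo⟩ := ε
          cases bo
          · rw [dl_f] at hεR ⊢
            rw [Finset.mem_coe, mem_RE_true] at hεR
            rw [mem_RE_true]; simp only; omega
          · rw [dl_t] at hεR ⊢
            rw [Finset.mem_coe, mem_RE_false] at hεR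
            rw [mem_RE_false]; simp only; omega
    exact key w hw3
  · intro z hz
    have h1 : DReach G (x0, y0 - 1) z := by
      apply reach_dl.mp
      apply Reach.mono _ hz
      rintro ε ⟨h, _⟩
      rw [coe_dmp] at h
      exact Set.image_mono hTG h
    have h2 : x0 - 5 * k ≤ z.1 ∧ z.1 ≤ x0 + 5 * k ∧ y0 - 1 - 5 * k ≤ z.2 ∧
        z.2 ≤ y0 - 1 + 5 * k := by
      clear h1
      induction hz with
      | refl => simp only; omega
      | tail _ hs _ =>
        obtain ⟨⟨x, y, bo⟩, ⟨_, hε⟩, hcase⟩ := hs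
        rw [Finset.mem_coe, mem_Rg] at hε
        cases bo
        · rw [mem_RE_false] at hε
          rw [src_mk, tgt_false] at hcase
          simp only at hε
          rcases hcase with ⟨h1, h2⟩ | ⟨h1, h2⟩
          · rw [← h2]; simp only; omega
          · rw [← h1]; simp only; omega
        · rw [mem_RE_true] at hε
          rw [src_mk, tgt_true] at hcase
          simp only at hε
          rcases hcase with ⟨h1, h2⟩ | ⟨h1, h2⟩
          · rw [← h2]; simp only; omega
          · rw [← h1]; simp only; omega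
    exact hconf z h1 (by omega) (by omega) (by omega) (by omega)

theorem lexr_trans_inv (w z q : Vtx) : lexr (z + w) (q + w) ↔ lexr z q := by
  simp only [lexr, Prod.fst_add, Prod.snd_add]
  omega

theorem lexr_anti (z q : Vtx) (h1 : lexr z q) (h2 : lexr q z) : z = q := by
  simp only [lexr] at h1 h2
  apply Prod.ext <;> omega

/-- The probability that a top edge joins two large clusters. -/
theorem mg_prob {D : Set Edg} {x0 y0 r R : ℤ} {k : ℕ} (hk : 5 ≤ k) (hD : TopDom D x0 y0 r)
    (hr : 5 * (k : ℤ) + 3 ≤ r) (hR : r ≤ R) {S : Finset Edg} (hDS : D ⊆ ↑S)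
    (heS : ((x0, y0, true) : Edg) ∈ S) :
    Pr hf S (fun F => ((x0, y0, true) : Edg) ∈ F ∧ MG D R (x0, y0, true) F) ≤
      N2 / (k : ℝ)^2 := by
  classical
  set q : Vtx := (x0, y0 - 1) with hq
  set T : Finset Edg := (Rg (fun _ => True) q (5 * k)).map dl.symm.toEmbedding with hT
  have hdT : dmp T = Rg (fun _ => True) q (5 * k) := by
    ext ε
    rw [mem_dmp, hT, Finset.mem_map_equiv, Equiv.symm_symm, Equiv.apply_symm_apply]
  have e1 : Pr hf S (fun F => ((x0, y0, true) : Edg) ∈ F ∧ MG D R (x0, y0, true) F) =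
      Pr hf (S ∪ T) (fun F => ((x0, y0, true) : Edg) ∈ F ∧ MG D R (x0, y0, true) F) := by
    symm
    apply Pr_local Finset.subset_union_left
    intro F _
    have h1 : (↑(F ∩ S) : Set Edg) ∩ D = ↑F ∩ D := by
      ext ε
      simp only [Finset.coe_inter, Set.mem_inter_iff, Finset.mem_coe]
      constructor
      · rintro ⟨⟨h1, _⟩, h2⟩; exact ⟨h1, h2⟩
      · rintro ⟨h1, h2⟩; exact ⟨⟨h1, hDS h2⟩, h2⟩
    unfold MG
    rw [h1, Finset.mem_inter]
    tauto
  have e2 : Pr hf (S ∪ T) (fun F => ((x0, y0, true) : Edg) ∈ F ∧ MG D R (x0, y0, true) F) ≤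
      Pr hf (S ∪ T) (fun F => LT' lexr (Rg (fun _ => True) q (5 * k)) q (4 * k)
        (dmp (T \ F))) := by
    apply Pr_mono okh
    rintro F _ ⟨h1, h2⟩
    exact mg_dual hD hr (by exact_mod_cast (by omega : 1 ≤ k)) hR hdT h1 h2
  have e3 : Pr hf (S ∪ T) (fun F => LT' lexr (Rg (fun _ => True) q (5 * k)) q (4 * k)
        (dmp (T \ F))) = Pr hf T (fun F => LT' lexr (Rg (fun _ => True) q (5 * k)) q (4 * k)
        (dmp (T \ F))) := by
    apply Pr_local Finset.subset_union_right
    intro F _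
    have : T \ (F ∩ T) = T \ F := by
      ext ε
      simp only [Finset.mem_sdiff, Finset.mem_inter]
      tauto
    rw [this]
  have e4 : Pr hf T (fun F => LT' lexr (Rg (fun _ => True) q (5 * k)) q (4 * k)
        (dmp (T \ F))) = Pr hf T (fun F => LT' lexr (Rg (fun _ => True) q (5 * k)) q (4 * k)
        (dmp F)) := by
    rw [← Pr_compl hf T (fun F => LT' lexr (Rg (fun _ => True) q (5 * k)) q (4 * k) (dmp F))]
    congr 1
    funext e
    simp only [hf]; norm_num
  have e5 : Pr hf T (fun F => LT' lexr (Rg (fun _ => True) q (5 * k)) q (4 * k) (dmp F)) =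
      Pr hf (Rg (fun _ => True) q (5 * k))
        (LT' lexr (Rg (fun _ => True) q (5 * k)) q (4 * k)) := by
    rw [← hdT]
    exact (pr_dmp _ _ _).symm
  rw [e1]
  refine e2.trans ?_
  rw [e3, e4, e5]
  exact tip_lin lexr_trans_inv lexr_anti q hk

end H99L
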