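import Pool.Agent.H99.DR.Low

/-!
Extreme points of clusters for a translation invariant order.
-/

set_option maxHeartbeats 400000

namespace H99L

open Finset

/-- `q` is connected far inside `R`, and it is the extreme vertex of its cluster in `R`. -/
def LT' (rel : Vtx → Vtx → Prop) (R : Finset Edg) (q : Vtx) (r : ℤ) (F : Finset Edg) : Prop :=
  (∃ z, Out q r z ∧ Reach (↑F ∩ ↑R) q z) ∧ ∀ z, Reach (↑F ∩ ↑R) q z → rel z q

theorem LT'_trl {rel : Vtx → Vtx → Prop} (hrel : ∀ w z q, rel (z + w) (q + w) ↔ rel z q)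
    {R : Finset Edg} {q : Vtx} {r : ℤ} {w : Vtx} {F : Finset Edg} :
    LT' rel ((trl w.1 w.2).mp R) (q + w) r ((trl w.1 w.2).mp F) ↔ LT' rel R q r F := by
  unfold LT'
  have hR : ∀ u v : Vtx, Reach (↑((trl w.1 w.2).mp F) ∩ ↑((trl w.1 w.2).mp R)) (u + w) (v + w) ↔
      Reach (↑F ∩ ↑R) u v := by
    intro u v
    rw [← LSym.image_inter]
    exact (trl w.1 w.2).reach_iff (u := u) (v := v)
  apply and_congr
  · constructor
    · rintro ⟨z, h1, h2⟩
      refine ⟨z - w, ?_, ?_⟩
      · simp only [Out, Prod.fst_add, Prod.snd_add, Prod.fst_sub, Prod.snd_sub] at h1 ⊢; omega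
      · rw [← hR, sub_add_cancel]; exact h2
    · rintro ⟨z, h1, h2⟩
      refine ⟨z + w, ?_, (hR _ _).mpr h2⟩
      simp only [Out, Prod.fst_add, Prod.snd_add] at h1 ⊢; omega
  · constructor
    · intro h z hz
      have := h (z + w) ((hR _ _).mpr hz)
      rwa [hrel] at this
    · intro h z hz
      have h1 := h (z - w) (by rw [← hR, sub_add_cancel]; exact hz)
      rw [← hrel w, sub_add_cancel] at h1
      exact h1

/-- The estimate for extreme points. -/
theorem tip_lin {rel : Vtx → Vtx → Prop} (hrel : ∀ w z q, rel (z + w) (q + w) ↔ rel z q)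
    (hanti : ∀ z q, rel z q → rel q z → z = q) (q : Vtx) {k : ℕ} (hk : 5 ≤ k) :
    Pr hf (Rg (fun _ => True) q (5 * k)) (LT' rel (Rg (fun _ => True) q (5 * k)) q (4 * k)) ≤
      N2 / (k : ℝ)^2 := by
  classical
  set H : Edg → Prop := fun _ => True with hH
  set W : Finset Vtx := Finset.Icc 0 (k : ℤ) ×ˢ Finset.Icc 0 (k : ℤ) with hW
  have hW' : ∀ w ∈ W, (0 ≤ w.1 ∧ w.1 ≤ k) ∧ (0 ≤ w.2 ∧ w.2 ≤ k) := by
    intro w hw
    rwa [hW, Finset.mem_product, Finset.mem_Icc, Finset.mem_Icc] at hw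
  set S := Rg H q (6 * k) with hS
  set M := Rg H q (3 * k) with hM
  set K : Finset Vtx := Finset.Icc (q.1 - k) (q.1 + k) ×ˢ Finset.Icc (q.2 - k) (q.2 + k) with hK
  set B : Set Vtx := {v | Out q (3 * k : ℕ) v} with hB
  have hRw : ∀ w ∈ W, Rg H (q + w) (5 * k) ⊆ S := by
    intro w hw
    have := hW' w hw
    apply Rg_mono <;> simp only [Prod.fst_add, Prod.snd_add] at this ⊢ <;> omega
  have hMR : ∀ w ∈ W, M ⊆ Rg H (q + w) (5 * k) := by
    intro w hw
    have := hW' w hw
    apply Rg_mono <;> simp only [Prod.fst_add, Prod.snd_add] at this ⊢ <;> omega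
  have hMS : M ⊆ S := by
    apply Rg_mono <;> omega
  have e1 : ∀ w ∈ W, Pr hf S (LT' rel (Rg H (q + w) (5 * k)) (q + w) (4 * k)) =
      Pr hf (Rg H q (5 * k)) (LT' rel (Rg H q (5 * k)) q (4 * k)) := by
    intro w hw
    have e2 : Pr hf S (LT' rel (Rg H (q + w) (5 * k)) (q + w) (4 * k)) =
        Pr hf (Rg H (q + w) (5 * k)) (LT' rel (Rg H (q + w) (5 * k)) (q + w) (4 * k)) := by
      apply Pr_local (hRw w hw)
      intro F _
      unfold LT'
      rw [coe_inter_eq (Finset.Subset.refl _)]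
    rw [e2, ← trl_Rg (w := w) (fun _ _ _ => Iff.rfl), LSym.pr]
    apply Pr_congr
    intro F _
    exact LT'_trl hrel
  have e3 : (W.card : ℝ) * Pr hf (Rg H q (5 * k)) (LT' rel (Rg H q (5 * k)) q (4 * k)) =
      Ex hf S (fun F => ∑ w ∈ W, ind (LT' rel (Rg H (q + w) (5 * k)) (q + w) (4 * k) F)) := by
    have e2' : ∀ w ∈ W, Ex hf S (fun F => ind (LT' rel (Rg H (q + w) (5 * k)) (q + w) (4 * k) F)) =
        Pr hf (Rg H q (5 * k)) (LT' rel (Rg H q (5 * k)) q (4 * k)) := e1
    rw [Ex_sum hf S W (fun w F => ind (LT' rel (Rg H (q + w) (5 * k)) (q + w) (4 * k) F)),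
      Finset.sum_congr rfl e2', Finset.sum_const, nsmul_eq_mul]
  have key : ∀ F : Finset Edg, F ⊆ S →
      ∑ w ∈ W, ind (LT' rel (Rg H (q + w) (5 * k)) (q + w) (4 * k) F) ≤
        ((NC src tgt K B (↑(F ∩ M) : Set Edg) : ℕ) : ℝ) := by
    intro F _
    set A := W.filter (fun w => LT' rel (Rg H (q + w) (5 * k)) (q + w) (4 * k) F) with hA
    have c1 : ∑ w ∈ W, ind (LT' rel (Rg H (q + w) (5 * k)) (q + w) (4 * k) F) = (A.card : ℝ) := by
      rw [hA, Finset.card_filter]
      push_cast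
      apply Finset.sum_congr rfl
      intro w _
      by_cases h : LT' rel (Rg H (q + w) (5 * k)) (q + w) (4 * k) F
      · rw [ind_of h, if_pos h]
      · rw [ind_not_of h, if_neg h]
    rw [c1]
    have hA' : ∀ w ∈ A, w ∈ W ∧ LT' rel (Rg H (q + w) (5 * k)) (q + w) (4 * k) F := by
      intro w hw
      rw [hA, Finset.mem_filter] at hw
      exact hw
    set f : Vtx → Set Vtx := fun w => clu src tgt (↑(F ∩ M) : Set Edg) (q + w) with hf'
    have hinj : Set.InjOn f ↑A := by
      intro w hw w' hw' heq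
      obtain ⟨hwW, hwT⟩ := hA' w hw
      obtain ⟨hwW', hwT'⟩ := hA' w' hw'
      have hcl : Reach (↑(F ∩ M) : Set Edg) (q + w) (q + w') := by
        have : q + w' ∈ clu src tgt (↑(F ∩ M) : Set Edg) (q + w) := by
          have h5 : clu src tgt (↑(F ∩ M) : Set Edg) (q + w) =
            clu src tgt (↑(F ∩ M) : Set Edg) (q + w') := heq
          rw [h5]
          exact Reach.refl _ _
        exact this
      have hsub : ∀ v ∈ W, (↑(F ∩ M) : Set Edg) ⊆ ↑F ∩ ↑(Rg H (q + v) (5 * k)) := by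
        intro v hv e he
        rw [Finset.coe_inter] at he
        exact ⟨he.1, hMR v hv he.2⟩
      have r1 := hwT.2 _ (hcl.mono (hsub w hwW))
      have r2 := hwT'.2 _ (hcl.symm.mono (hsub w' hwW'))
      have := hanti _ _ r1 r2
      exact (add_left_cancel this).symm
    have c3 : A.image f ⊆ TC src tgt K B (↑(F ∩ M) : Set Edg) := by
      intro C hC
      rw [Finset.mem_image] at hC
      obtain ⟨w, hw, rfl⟩ := hC
      obtain ⟨hwW, ⟨z, hz, hr⟩, -⟩ := hA' w hw
      have hw0 := hW' w hwW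
      rw [mem_TC]
      refine ⟨q + w, ?_, ?_, rfl⟩
      · rw [hK, Finset.mem_product, Finset.mem_Icc, Finset.mem_Icc]
        simp only [Prod.fst_add, Prod.snd_add]
        omega
      · obtain ⟨v, k1, k2, k3⟩ := first_exit (a := q.1 - 3 * k) (b := q.1 + 3 * k)
          (c := q.2 - 3 * k) (d := q.2 + 3 * k) (u := q + w) (v := z)
          (by simp only [inR, Prod.fst_add, Prod.snd_add]; omega) hr
          (by simp only [Out, Prod.fst_add, Prod.snd_add] at hz ⊢; omega)
        refine ⟨v, ?_, ?_⟩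
        · simp only [hB, Set.mem_ofPred_eq, Out, inR] at k1 k2 ⊢
          push_cast
          omega
        · apply k3.mono
          rintro e ⟨⟨h1, h2⟩, h3⟩
          rw [Finset.coe_inter]
          refine ⟨h1, ?_⟩
          rw [Finset.mem_coe, mem_Rg] at h2 ⊢
          exact ⟨by exact_mod_cast h3, h2.2⟩
    have c4 : A.card ≤ NC src tgt K B (↑(F ∩ M) : Set Edg) := by
      rw [← Finset.card_image_of_injOn hinj]
      exact Finset.card_le_card c3
    exact_mod_cast c4
  have hmain : (W.card : ℝ) * Pr hf (Rg H q (5 * k)) (LT' rel (Rg H q (5 * k)) q (4 * k)) ≤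
      N2 := by
    rw [e3]
    refine (Ex_mono okh key).trans ?_
    have e4 : Ex hf S (fun F => ((NC src tgt K B (↑(F ∩ M) : Set Edg) : ℕ) : ℝ)) =
        Ex hf M (fun F => ((NC src tgt K B (↑(F ∩ M) : Set Edg) : ℕ) : ℝ)) := by
      apply Ex_local hMS
      intro F _
      rw [Finset.inter_assoc, Finset.inter_self]
    have e5 : Ex hf M (fun F => ((NC src tgt K B (↑(F ∩ M) : Set Edg) : ℕ) : ℝ)) =
        Ex hf M (fun F => ((NC src tgt K B (↑F : Set Edg) : ℕ) : ℝ)) := by
      apply Ex_congr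
      intro F hF
      rw [Finset.inter_eq_left.mpr hF]
    rw [e4, e5]
    apply exNC M q hk
    · intro u hu
      rw [hK, Finset.mem_product, Finset.mem_Icc, Finset.mem_Icc] at hu
      simp only [In]
      omega
    · intro v hv
      exact hv
  have hc : (W.card : ℝ) = ((k : ℝ) + 1)^2 := by
    rw [hW, Finset.card_product, Int.card_Icc]
    have : ((k : ℤ) + 1 - 0).toNat = k + 1 := by omega
    rw [this]
    push_cast
    ring
  rw [hc] at hmain
  have hk' : (0 : ℝ) < k := by exact_mod_cast (by omega : 0 < k)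
  have hP := Pr_nonneg okh (Rg H q (5 * k)) (LT' rel (Rg H q (5 * k)) q (4 * k))
  rw [le_div_iff₀ (by positivity)]
  nlinarith [mul_nonneg hP hk'.le]

end H99L
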