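import Pool.Agent.H99.DR.Low

/-!
Long paths in a thin strip are unlikely.
-/

set_option maxHeartbeats 400000

namespace H99L

open Finset

/-- Consecutive crossings of `j` squares. -/
theorem rowP {a c d X : ℤ} (hcd : c ≤ d) {S : Finset Edg} (hS : RE 0 a c d ⊆ S) (j : ℕ)
    (hX : 0 ≤ X) (hj : X + j * (d - c + 2) ≤ a + 1) :
    Pr hf S (fun F => ∀ i < j, LRc (X + i * (d - c + 2)) (X + i * (d - c + 2) + (d - c + 1)) c d F) ≤
      (1/2 : ℝ)^j := by
  have hh0 : 0 ≤ d - c := by omega
  induction j with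
  | zero =>
    simp only [pow_zero]
    exact Pr_le_one okh _ _
  | succ j ih =>
    have e0 : ((j + 1 : ℕ) : ℤ) * (d - c + 2) = (j : ℤ) * (d - c + 2) + (d - c + 2) := by
      push_cast; ring
    rw [e0] at hj
    have i1 := ih (by omega)
    have hkk : (0 : ℤ) ≤ (j : ℤ) * (d - c + 2) := by positivity
    set A : ℤ := X + (j : ℤ) * (d - c + 2) with hA
    set T1 : Finset Edg := RE 0 (A - 1) c d with hT1
    set T2 : Finset Edg := LRE A (A + (d - c + 1)) c d with hT2
    have hsub1 : T1 ⊆ S := by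
      refine Finset.Subset.trans (RE_subset le_rfl (by omega) le_rfl le_rfl) hS
    have hsub2 : T2 ⊆ S := by
      refine Finset.Subset.trans LRE_subset_RE ?_
      exact Finset.Subset.trans (RE_subset (by omega) (by omega) le_rfl le_rfl) hS
    have hd : Disjoint T1 T2 := by
      rw [Finset.disjoint_left]
      rintro ⟨x, y, _ | _⟩ h1 h2
      · rw [hT1, mem_RE_false] at h1
        rw [hT2, mem_LRE_false] at h2
        omega
      · rw [hT1, mem_RE_true] at h1
        rw [hT2, mem_LRE_true] at h2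
        omega
    have e1 : Pr hf S (fun F => ∀ i < j + 1,
          LRc (X + i * (d - c + 2)) (X + i * (d - c + 2) + (d - c + 1)) c d F) =
        Pr hf S (fun F => (∀ i < j,
          LRc (X + i * (d - c + 2)) (X + i * (d - c + 2) + (d - c + 1)) c d F) ∧
          LRc A (A + (d - c + 1)) c d F) := by
      apply Pr_congr
      intro F _
      constructor
      · intro h
        exact ⟨fun i hi => h i (by omega), h j (by omega)⟩
      · rintro ⟨h, h'⟩ i hi
        rcases Nat.lt_or_ge i j with hlt | hge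
        · exact h i hlt
        · have : i = j := by omega
          rw [this]; exact h'
    have i2 := Pr_indep (p := hf)
      (A := fun F => ∀ i < j,
        LRc (X + i * (d - c + 2)) (X + i * (d - c + 2) + (d - c + 1)) c d F)
      (B := fun F => LRc A (A + (d - c + 1)) c d F) hsub1 hsub2 hd
      (fun F _ => forall_congr' fun i => forall_congr' fun hi =>
        (LRc_local (by
          refine Finset.Subset.trans LRE_subset_RE ?_
          have h1 : ((i : ℤ) + 1) * (d - c + 2) ≤ (j : ℤ) * (d - c + 2) :=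
            mul_le_mul_of_nonneg_right (by exact_mod_cast hi) (by omega)
          have h2 : ((i : ℤ) + 1) * (d - c + 2) = (i : ℤ) * (d - c + 2) + (d - c + 2) := by ring
          have h3 : (0 : ℤ) ≤ (i : ℤ) * (d - c + 2) := by positivity
          exact RE_subset (by omega) (by omega) le_rfl le_rfl)))
      (fun F _ => (LRc_local (Finset.Subset.refl _)))
    rw [e1, i2, pow_succ]
    have hsq : Pr hf S (fun F => LRc A (A + (d - c + 1)) c d F) = 1/2 := by
      have h1 : Pr (fun _ => (1/2 : ℝ)) S (LRc A (A + (d - c + 1)) c d) =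
          hh (1/2) (A + (d - c + 1) - A) (d - c) :=
        pr_LRc (1/2) hsub2
      have h2 : (A + (d - c + 1) - A : ℤ) = d - c + 1 := by ring
      rw [h2, hh_half _ hh0] at h1
      exact h1
    rw [hsq]
    exact mul_le_mul_of_nonneg_right i1 (by norm_num)

/-- A long path in a thin strip. -/
def LongP (a c d l : ℤ) (F : Finset Edg) : Prop :=
  ∃ u v : Vtx, Reach (↑F ∩ ↑(RE 0 a c d)) u v ∧ u.1 + l ≤ v.1

theorem longP {c d : ℤ} (a : ℕ) (hcd : c ≤ d) {S : Finset Edg} (hS : RE 0 a c d ⊆ S) {j s : ℕ}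
    (hj : 1 ≤ j) (hs : (s : ℤ) = j * (d - c + 2)) {l : ℤ} (hl : 2 * (s : ℤ) ≤ l) :
    Pr hf S (LongP a c d l) ≤ ((a : ℝ) / s + 1) * (1/2)^j := by
  have hh0 : 0 ≤ d - c := by omega
  have hs0 : 0 < s := by
    have : (1 : ℤ) * 2 ≤ j * (d - c + 2) :=
      mul_le_mul (by exact_mod_cast hj) (by omega) (by norm_num) (by positivity)
    omega
  have hs0' : (0 : ℤ) < s := by exact_mod_cast hs0
  set J : Finset ℕ := Finset.range (a / s + 1) with hJ
  have h1 : Pr hf S (LongP a c d l) ≤ Pr hf S (fun F => ∃ i ∈ J.filter (fun i => (i + 1) * s ≤ a),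
      ∀ t < j, LRc ((i : ℤ) * s + t * (d - c + 2)) ((i : ℤ) * s + t * (d - c + 2) + (d - c + 1))
        c d F) := by
    apply Pr_mono okh
    rintro F _ ⟨u, v, hr, huv⟩
    have hne : u ≠ v := by
      rintro rfl
      omega
    -- endpoints in the strip
    have hend : ∀ u v : Vtx, Reach (↑F ∩ ↑(RE 0 a c d)) u v → u ≠ v → 0 ≤ u.1 ∧ u.1 ≤ a := by
      intro u v hr hne
      rcases Relation.ReflTransGen.cases_head hr with h | ⟨z, ⟨e, he, hc⟩, -⟩
      · exact absurd h hne
      · obtain ⟨h1, h2⟩ := RE_ends he.2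
        rcases hc with ⟨h3, -⟩ | ⟨-, h3⟩
        · rw [← h3]; simp only [inR] at h1; omega
        · rw [← h3]; simp only [inR] at h2; omega
    have hu := hend u v hr hne
    have hv := hend v u hr.symm hne.symm
    -- the first grid point after `u`
    set i : ℕ := ((u.1 + s - 1) / s).toNat with hi
    have hi0 : 0 ≤ (u.1 + s - 1) / s := Int.ediv_nonneg (by omega) hs0'.le
    have hi1 : (i : ℤ) = (u.1 + s - 1) / s := by omega
    have hi2 : (i : ℤ) * s ≤ u.1 + s - 1 := by
      rw [hi1]; exact Int.ediv_mul_le _ hs0'.ne'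
    have hi3 : u.1 ≤ (i : ℤ) * s := by
      have := Int.lt_ediv_add_one_mul_self (u.1 + s - 1) hs0'
      rw [← hi1] at this
      have e : ((i : ℤ) + 1) * s = i * s + s := by ring
      omega
    have hi4 : ((i : ℤ) + 1) * s ≤ a := by
      have e : ((i : ℤ) + 1) * s = i * s + s := by ring
      omega
    refine ⟨i, ?_, ?_⟩
    · rw [Finset.mem_filter, hJ, Finset.mem_range]
      have : (i + 1) * s ≤ a := by exact_mod_cast hi4
      refine ⟨?_, this⟩
      have h5 : i + 1 ≤ a / s := (Nat.le_div_iff_mul_le hs0).mpr this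
      omega
    · intro t ht
      have e : ((i : ℤ) + 1) * s = i * s + s := by ring
      have h1 : ((t : ℤ) + 1) * (d - c + 2) ≤ (j : ℤ) * (d - c + 2) :=
        mul_le_mul_of_nonneg_right (by exact_mod_cast ht) (by omega)
      have h2 : ((t : ℤ) + 1) * (d - c + 2) = (t : ℤ) * (d - c + 2) + (d - c + 2) := by ring
      have h3 : (0 : ℤ) ≤ (t : ℤ) * (d - c + 2) := by positivity
      obtain ⟨y1, y2, k1, k2, k3, -⟩ := sub_LR (c := c) (d := d)
        (a := (i : ℤ) * s + t * (d - c + 2)) (b := (i : ℤ) * s + t * (d - c + 2) + (d - c + 1))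
        (by omega)
        (by rintro x y ⟨-, h⟩ _ _; simp only [mem_coe, mem_RE_true] at h; omega)
        (by rintro x y ⟨-, h⟩ _ _; simp only [mem_coe, mem_RE_false] at h; omega) hr
        (by omega) (by omega)
      refine ⟨y1, y2, k1, k2, k3.mono ?_⟩
      rintro e ⟨⟨h4, -⟩, h5⟩
      exact ⟨h4, h5⟩
  have h2 : Pr hf S (fun F => ∃ i ∈ J.filter (fun i => (i + 1) * s ≤ a),
      ∀ t < j, LRc ((i : ℤ) * s + t * (d - c + 2)) ((i : ℤ) * s + t * (d - c + 2) + (d - c + 1))
        c d F) ≤ ∑ i ∈ J.filter (fun i => (i + 1) * s ≤ a), (1/2 : ℝ)^j := by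
    refine (Pr_exists_le okh S _ (fun (i : ℕ) F => ∀ t < j, LRc ((i : ℤ) * s + t * (d - c + 2))
      ((i : ℤ) * s + t * (d - c + 2) + (d - c + 1)) c d F)).trans ?_
    apply Finset.sum_le_sum
    intro i hi
    rw [Finset.mem_filter] at hi
    have hi4 : ((i : ℤ) + 1) * s ≤ a := by exact_mod_cast hi.2
    have e : ((i : ℤ) + 1) * s = i * s + s := by ring
    exact rowP hcd hS j (by positivity) (by omega)
  refine (h1.trans h2).trans ?_
  rw [Finset.sum_const, nsmul_eq_mul]
  apply mul_le_mul_of_nonneg_right _ (by positivity)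
  have h3 : (J.filter (fun i => (i + 1) * s ≤ a)).card ≤ a / s + 1 := by
    refine (Finset.card_filter_le _ _).trans ?_
    rw [hJ, Finset.card_range]
  have h4 : ((a / s : ℕ) : ℝ) ≤ (a : ℝ) / s := Nat.cast_div_le
  have h5 : ((J.filter (fun i => (i + 1) * s ≤ a)).card : ℝ) ≤ ((a / s : ℕ) : ℝ) + 1 := by
    exact_mod_cast h3
  linarith

end H99L
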