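import Pool.Agent.H99.MS.K3
import Pool.Agent.H99.MS.Long

/-!
Adding rows to a rectangle: no two large clusters are joined, and large clusters do not grow much.
-/

set_option maxHeartbeats 400000

namespace H99L

open Finset

/-- The cluster of `u` contains two vertices at distance `L`. -/
def Big (G : Set Edg) (L : ℤ) (u : Vtx) : Prop :=
  ∃ z z', Reach G u z ∧ Reach G u z' ∧ Out z L z'

theorem Big.mono {G G' : Set Edg} (h : G ⊆ G') {L : ℤ} {u : Vtx} (hB : Big G L u) :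
    Big G' L u := by
  obtain ⟨z, z', h1, h2, h3⟩ := hB
  exact ⟨z, z', h1.mono h, h2.mono h, h3⟩

theorem Big.reach {G : Set Edg} {L : ℤ} {u v : Vtx} (h : Reach G u v) (hB : Big G L u) :
    Big G L v := by
  obtain ⟨z, z', h1, h2, h3⟩ := hB
  exact ⟨z, z', h.symm.trans h1, h.symm.trans h2, h3⟩

theorem Out.anti {z z' : Vtx} {L L' : ℤ} (h : L' ≤ L) (ho : Out z L z') : Out z L' z' := by
  simp only [Out] at ho ⊢; omega

theorem Big.anti {G : Set Edg} {L L' : ℤ} {u : Vtx} (h : L' ≤ L) (hB : Big G L u) :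
    Big G L' u := by
  obtain ⟨z, z', h1, h2, h3⟩ := hB
  exact ⟨z, z', h1, h2, h3.anti h⟩

/-- What happens between `G0` and the larger `G1`. -/
def StG (G0 G1 : Set Edg) (L Dd : ℤ) : Prop :=
  (∀ u v, Big G0 L u → Big G0 L v → Reach G1 u v → Reach G0 u v) ∧
  (∀ u z, Big G0 L u → Reach G1 u z → ∃ v, Reach G0 u v ∧ ¬ Out v Dd z) ∧
  (∀ v, Big G1 Dd v → ∃ x, Reach G1 v x ∧ Big G0 L x)

/-- The order in which the edges of a rectangle are added. -/
def keyE (M : ℤ) (e : Edg) : ℤ := if e.2.2 then 2 * e.2.1 * M + e.1 else (2 * e.2.1 + 1) * M + e.1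

@[simp] theorem keyE_true (M x y : ℤ) : keyE M (x, y, true) = 2 * y * M + x := rfl
@[simp] theorem keyE_false (M x y : ℤ) : keyE M (x, y, false) = (2 * y + 1) * M + x := rfl

/-- The edges before time `t`. -/
def Dom (a b' t : ℤ) : Set Edg := {e | e ∈ RE 0 a 0 b' ∧ keyE (a + 1) e < t}

theorem lex_lt {M : ℤ} (hM : 0 < M) {p q x x' : ℤ} (hx : 0 ≤ x) (hx' : 0 ≤ x') (hxM : x < M)
    (hxM' : x' < M) : p * M + x < q * M + x' ↔ p < q ∨ (p = q ∧ x < x') := by
  constructor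
  · intro h
    by_contra hcon
    push Not at hcon
    obtain ⟨h1, h2⟩ := hcon
    rcases h1.lt_or_eq with h3 | h3
    · have : (q + 1) * M ≤ p * M := mul_le_mul_of_nonneg_right h3 hM.le
      have e : (q + 1) * M = q * M + M := by ring
      omega
    · subst h3
      have := h2 rfl
      omega
  · rintro (h | ⟨rfl, h⟩)
    · have : (p + 1) * M ≤ q * M := mul_le_mul_of_nonneg_right h hM.le
      have e : (p + 1) * M = p * M + M := by ring
      omega
    · omega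

theorem Dom_eq {a b b' : ℤ} (ha : 0 ≤ a) (hb : b ≤ b') :
    Dom a b' ((2 * b + 1) * (a + 1)) = ↑(RE 0 a 0 b) := by
  have hM : 0 < a + 1 := by omega
  ext ⟨x, y, bo⟩
  simp only [Dom, Set.mem_ofPred_eq, Finset.mem_coe]
  cases bo
  · rw [mem_RE_false, mem_RE_false, keyE_false]
    constructor
    · rintro ⟨h1, h2⟩
      have := (lex_lt hM (p := 2 * y + 1) (q := 2 * b + 1) (x' := 0) h1.1 le_rfl (by omega)
        hM).mp (by omega)
      omega
    · intro h
      refine ⟨by omega, ?_⟩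
      have := (lex_lt hM (p := 2 * y + 1) (q := 2 * b + 1) (x' := 0) h.1 le_rfl (by omega) hM).mpr
        (by omega)
      omega
  · rw [mem_RE_true, mem_RE_true, keyE_true]
    constructor
    · rintro ⟨h1, h2⟩
      have := (lex_lt hM (p := 2 * y) (q := 2 * b + 1) (x' := 0) h1.1 le_rfl (by omega)
        hM).mp (by omega)
      omega
    · intro h
      refine ⟨by omega, ?_⟩
      have := (lex_lt hM (p := 2 * y) (q := 2 * b + 1) (x' := 0) h.1 le_rfl (by omega) hM).mpr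
        (by omega)
      omega

theorem Dom_mono {a b' t t' : ℤ} (h : t ≤ t') : Dom a b' t ⊆ Dom a b' t' :=
  fun _ he => ⟨he.1, lt_of_lt_of_le he.2 h⟩

theorem keyE_inj {a b' : ℤ} (ha : 0 ≤ a) {e e' : Edg} (h : e ∈ RE 0 a 0 b')
    (h' : e' ∈ RE 0 a 0 b') (hk : keyE (a + 1) e = keyE (a + 1) e') : e = e' := by
  have hM : 0 < a + 1 := by omega
  obtain ⟨x, y, bo⟩ := e
  obtain ⟨x', y', bo'⟩ := e'
  cases bo <;> cases bo'
  · rw [mem_RE_false] at h h'
    rw [keyE_false, keyE_false] at hk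
    have h1 := lex_lt hM (p := 2 * y + 1) (q := 2 * y' + 1) h.1 h'.1 (by omega) (by omega)
    have h2 := lex_lt hM (p := 2 * y' + 1) (q := 2 * y + 1) h'.1 h.1 (by omega) (by omega)
    have : x = x' ∧ y = y' := by omega
    rw [this.1, this.2]
  · rw [mem_RE_false] at h
    rw [mem_RE_true] at h'
    rw [keyE_false, keyE_true] at hk
    have h1 := lex_lt hM (p := 2 * y + 1) (q := 2 * y') h.1 h'.1 (by omega) (by omega)
    have h2 := lex_lt hM (p := 2 * y') (q := 2 * y + 1) h'.1 h.1 (by omega) (by omega)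
    omega
  · rw [mem_RE_true] at h
    rw [mem_RE_false] at h'
    rw [keyE_false, keyE_true] at hk
    have h1 := lex_lt hM (p := 2 * y) (q := 2 * y' + 1) h.1 h'.1 (by omega) (by omega)
    have h2 := lex_lt hM (p := 2 * y' + 1) (q := 2 * y) h'.1 h.1 (by omega) (by omega)
    omega
  · rw [mem_RE_true] at h h'
    rw [keyE_true, keyE_true] at hk
    have h1 := lex_lt hM (p := 2 * y) (q := 2 * y') h.1 h'.1 (by omega) (by omega)
    have h2 := lex_lt hM (p := 2 * y') (q := 2 * y) h'.1 h.1 (by omega) (by omega)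
    have : x = x' ∧ y = y' := by omega
    rw [this.1, this.2]

/-- Adding one edge. -/
theorem reach_insert_cases {G G' : Set Edg} {e : Edg} (hG' : ∀ ε ∈ G', ε ∈ G ∨ ε = e) {u v : Vtx}
    (h : Reach G' u v) : Reach G u v ∨ (Reach G u (src e) ∧ Reach G (tgt e) v) ∨
      (Reach G u (tgt e) ∧ Reach G (src e) v) := by
  induction h with
  | refl => exact Or.inl (Reach.refl _ _)
  | @tail w w' _ hs ih =>
    obtain ⟨ε, hε, hcase⟩ := hs
    rcases hG' ε hε with h1 | rfl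
    · have h2 : Reach G w w' := Adj.reach ⟨ε, h1, hcase⟩
      rcases ih with h | ⟨h, h'⟩ | ⟨h, h'⟩
      · exact Or.inl (h.trans h2)
      · exact Or.inr (Or.inl ⟨h, h'.trans h2⟩)
      · exact Or.inr (Or.inr ⟨h, h'.trans h2⟩)
    · rcases hcase with ⟨k1, k2⟩ | ⟨k1, k2⟩
      · rw [← k2]
        rw [← k1] at ih
        rcases ih with h | ⟨h, h'⟩ | ⟨h, h'⟩
        · exact Or.inr (Or.inl ⟨h, Reach.refl _ _⟩)
        · exact Or.inr (Or.inl ⟨h, Reach.refl _ _⟩)
        · exact Or.inl h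
      · rw [← k1]
        rw [← k2] at ih
        rcases ih with h | ⟨h, h'⟩ | ⟨h, h'⟩
        · exact Or.inr (Or.inr ⟨h, Reach.refl _ _⟩)
        · exact Or.inl h
        · exact Or.inr (Or.inr ⟨h, Reach.refl _ _⟩)

/-- The edge which joins two clusters. -/
theorem merge_key {a b' : ℤ} (ha : 0 ≤ a) {F : Finset Edg} {t0 t1 : ℤ} (h01 : t0 ≤ t1) {u v : Vtx}
    (h1 : Reach (↑F ∩ Dom a b' t1) u v) (h0 : ¬ Reach (↑F ∩ Dom a b' t0) u v) :
    ∃ e ∈ F, e ∈ RE 0 a 0 b' ∧ t0 ≤ keyE (a + 1) e ∧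
      ¬ Reach (↑F ∩ Dom a b' (keyE (a + 1) e)) u v ∧
      ((Reach (↑F ∩ Dom a b' (keyE (a + 1) e)) u (src e) ∧
        Reach (↑F ∩ Dom a b' (keyE (a + 1) e)) (tgt e) v) ∨
      (Reach (↑F ∩ Dom a b' (keyE (a + 1) e)) u (tgt e) ∧
        Reach (↑F ∩ Dom a b' (keyE (a + 1) e)) (src e) v)) := by
  obtain ⟨n, hn⟩ := Int.eq_ofNat_of_zero_le (sub_nonneg.mpr h01)
  have ht : t1 = t0 + n := by omega
  subst ht
  clear hn h01
  induction n with
  | zero =>
    rw [Nat.cast_zero, add_zero] at h1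
    exact absurd h1 h0
  | succ n ih =>
    by_cases hr : Reach (↑F ∩ Dom a b' (t0 + n)) u v
    · exact ih hr
    · by_cases hex : ∃ e ∈ F, e ∈ RE 0 a 0 b' ∧ keyE (a + 1) e = t0 + n
      · obtain ⟨e, heF, heR, hek⟩ := hex
        have hc := reach_insert_cases (G := ↑F ∩ Dom a b' (t0 + n)) (e := e) (by
          rintro ε ⟨h2, h3, h4⟩
          by_cases h5 : keyE (a + 1) ε = t0 + n
          · right
            exact keyE_inj ha h3 heR (h5.trans hek.symm)
          · left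
            refine ⟨h2, h3, ?_⟩
            push_cast at h4
            omega) h1
        refine ⟨e, heF, heR, by omega, ?_, ?_⟩
        · rw [hek]; exact hr
        · rw [hek]
          rcases hc with h | h
          · exact absurd h hr
          · exact h
      · exfalso
        apply hr
        apply h1.mono
        rintro ε ⟨h2, h3, h4⟩
        refine ⟨h2, h3, ?_⟩
        by_contra h5
        apply hex
        refine ⟨ε, h2, h3, ?_⟩
        push_cast at h4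
        omega

/-- The tip of a spoke is isolated. -/
theorem spoke_iso {a b' x y : ℤ} (ha : 0 ≤ a) {F : Finset Edg}
    (he : ((x, y, false) : Edg) ∈ RE 0 a 0 b') {w : Vtx}
    (h : Reach (↑F ∩ Dom a b' (keyE (a + 1) (x, y, false))) (x, y + 1) w) : w = (x, y + 1) := by
  have hM : 0 < a + 1 := by omega
  rw [mem_RE_false] at he
  rcases Relation.ReflTransGen.cases_head h with h1 | ⟨z, ⟨⟨x', y', bo⟩, ⟨_, h2, h3⟩, hc⟩, -⟩
  · exact h1.symm
  · exfalso
    rw [keyE_false] at h3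
    cases bo
    · rw [mem_RE_false] at h2
      rw [keyE_false, lex_lt hM h2.1 he.1 (by omega) (by omega)] at h3
      simp only [src_mk, tgt_false, Prod.mk.injEq] at hc
      rcases hc with ⟨⟨h4, h5⟩, -⟩ | ⟨-, h4, h5⟩ <;> omega
    · rw [mem_RE_true] at h2
      rw [keyE_true, lex_lt hM h2.1 he.1 (by omega) (by omega)] at h3
      simp only [src_mk, tgt_true, Prod.mk.injEq] at hc
      rcases hc with ⟨⟨h4, h5⟩, -⟩ | ⟨-, h4, h5⟩ <;> omega

theorem far_of {z z' p : Vtx} {R : ℤ} (h : Out z (2 * R) z') : Out p R z ∨ Out p R z' := by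
  simp only [Out] at h ⊢; omega

/-- No two large clusters are joined. -/
theorem no_join {a b b' R : ℤ} (ha : 0 ≤ a) (hbb : b ≤ b') (hR : 1 ≤ R) {F : Finset Edg}
    (hNM : ∀ x y, b < y → ((x, y, true) : Edg) ∈ F → ((x, y, true) : Edg) ∈ RE 0 a 0 b' →
      ¬ MG (Dom a b' (keyE (a + 1) (x, y, true))) R (x, y, true) F) {u v : Vtx}
    (hu : Big (↑F ∩ ↑(RE 0 a 0 b)) (2 * R) u) (hv : Big (↑F ∩ ↑(RE 0 a 0 b)) (2 * R) v)
    (h : Reach (↑F ∩ ↑(RE 0 a 0 b')) u v) : Reach (↑F ∩ ↑(RE 0 a 0 b)) u v := by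
  have hM : 0 < a + 1 := by omega
  by_contra hcon
  rw [← Dom_eq ha hbb] at hcon hu hv
  rw [← Dom_eq ha (le_refl b')] at h
  obtain ⟨e, heF, heR, hek, hn, hc⟩ := merge_key ha (mul_le_mul_of_nonneg_right
    (by omega : 2 * b + 1 ≤ 2 * b' + 1) hM.le) h hcon
  have hsub : (↑F ∩ Dom a b' ((2 * b + 1) * (a + 1))) ⊆ ↑F ∩ Dom a b' (keyE (a + 1) e) :=
    Set.inter_subset_inter_right _ (Dom_mono hek)
  -- both ends belong to big clusters
  have hends : Big (↑F ∩ Dom a b' (keyE (a + 1) e)) (2 * R) (src e) ∧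
      Big (↑F ∩ Dom a b' (keyE (a + 1) e)) (2 * R) (tgt e) ∧
      ¬ Reach (↑F ∩ Dom a b' (keyE (a + 1) e)) (src e) (tgt e) := by
    rcases hc with ⟨h1, h2⟩ | ⟨h1, h2⟩
    · exact ⟨(hu.mono hsub).reach h1, (hv.mono hsub).reach h2.symm,
        fun h3 => hn (h1.trans (h3.trans h2))⟩
    · exact ⟨(hv.mono hsub).reach h2.symm, (hu.mono hsub).reach h1,
        fun h3 => hn (h1.trans (h3.symm.trans h2))⟩
  obtain ⟨⟨z1, z1', k1, k1', k2⟩, ⟨z2, z2', k3, k3', k4⟩, k5⟩ := hends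
  obtain ⟨x, y, bo⟩ := e
  cases bo
  · rw [tgt_false] at k3 k3'
    have e1 := spoke_iso ha heR k3
    have e2 := spoke_iso ha heR k3'
    rw [e1, e2] at k4
    simp only [Out] at k4
    omega
  · rw [keyE_true] at hek
    have heR' := heR
    rw [mem_RE_true] at heR'
    have hy : b < y := by
      have h1 := (lex_lt hM (p := 2 * y) (q := 2 * b + 1) (x' := 0) heR'.1 le_rfl (by omega) hM).mpr
      by_contra hcon'
      have := h1 (by omega)
      omega
    apply hNM x y hy heF heR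
    refine ⟨k5, ?_, ?_⟩
    · rcases far_of (p := src (x, y, true)) k2 with h1 | h1
      · exact ⟨z1, h1, k1⟩
      · exact ⟨z1', h1, k1'⟩
    · rcases far_of (p := src (x, y, true)) k4 with h1 | h1
      · exact ⟨z2, h1, k3⟩
      · exact ⟨z2', h1, k3'⟩

/-- A small cluster which comes down from the top does not reach the new rows. -/
theorem closed_off {a b b' L : ℤ} {F : Finset Edg} {x x0 : Vtx}
    (hx : ¬ Big (↑F ∩ ↑(RE 0 a 0 b)) L x) (hx0 : Reach (↑F ∩ ↑(RE 0 a 0 b)) x x0)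
    (hlow : x0.2 < b - L) {w : Vtx} (h : Reach (↑F ∩ ↑(RE 0 a 0 b')) x w) :
    Reach (↑F ∩ ↑(RE 0 a 0 b)) x w := by
  induction h with
  | refl => exact Reach.refl _ _
  | @tail w w' _ hs ih =>
    obtain ⟨⟨x1, y1, bo⟩, ⟨hF, hR⟩, hcase⟩ := hs
    have h1 : ¬ Out x0 L w := fun h => hx ⟨x0, w, hx0, ih, h⟩
    simp only [Out] at h1
    refine ih.trans (Adj.reach ⟨(x1, y1, bo), ⟨hF, ?_⟩, hcase⟩)
    rw [Finset.mem_coe] at hR ⊢
    cases bo
    · rw [mem_RE_false] at hR ⊢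
      simp only [src_mk, tgt_false] at hcase
      rcases hcase with ⟨h2, -⟩ | ⟨-, h2⟩ <;> rw [← h2] at h1 <;> simp only at h1 <;> omega
    · rw [mem_RE_true] at hR ⊢
      simp only [src_mk, tgt_true] at hcase
      rcases hcase with ⟨h2, -⟩ | ⟨-, h2⟩ <;> rw [← h2] at h1 <;> simp only at h1 <;> omega

/-- An edge of the large rectangle outside of the layer starts below the layer and belongs to the
small rectangle. -/
theorem below {a b b' L : ℤ} (hL : 1 ≤ L) {ε : Edg} (h1 : ε ∈ RE 0 a 0 b')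
    (h2 : ε ∉ RE 0 a (b - L) b') : (src ε).2 < b - L ∧ ε ∈ RE 0 a 0 b := by
  obtain ⟨x, y, bo⟩ := ε
  cases bo
  · rw [mem_RE_false] at h1 h2 ⊢
    simp only [src_mk]
    omega
  · rw [mem_RE_true] at h1 h2 ⊢
    simp only [src_mk]
    omega

theorem stage_det {a b b' R Dd : ℤ} (ha : 0 ≤ a) (hbb : b ≤ b') (hR : 1 ≤ R) (hD : 2 * R ≤ Dd)
    {F : Finset Edg}
    (hNM : ∀ x y, b < y → ((x, y, true) : Edg) ∈ F → ((x, y, true) : Edg) ∈ RE 0 a 0 b' →
      ¬ MG (Dom a b' (keyE (a + 1) (x, y, true))) R (x, y, true) F)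
    (hNL : ∀ u v, Reach (↑F ∩ ↑(RE 0 a (b - 2 * R) b')) u v → ¬ Out u Dd v) :
    StG (↑F ∩ ↑(RE 0 a 0 b)) (↑F ∩ ↑(RE 0 a 0 b')) (2 * R) Dd := by
  have hsub : (↑F ∩ ↑(RE 0 a 0 b) : Set Edg) ⊆ ↑F ∩ ↑(RE 0 a 0 b') := by
    apply Set.inter_subset_inter_right
    exact_mod_cast RE_subset le_rfl le_rfl le_rfl hbb
  refine ⟨fun u v hu hv h => no_join ha hbb hR hNM hu hv h, ?_, ?_⟩
  · intro u z hu hz
    have key : ∃ v, Reach (↑F ∩ ↑(RE 0 a 0 b)) u v ∧
        Reach (↑F ∩ ↑(RE 0 a (b - 2 * R) b')) v z := by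
      induction hz with
      | refl => exact ⟨u, Reach.refl _ _, Reach.refl _ _⟩
      | @tail x x' hux hs ih =>
        obtain ⟨v, hv1, hv2⟩ := ih
        obtain ⟨ε, ⟨hεF, hεR⟩, hcase⟩ := hs
        by_cases hl : ε ∈ RE 0 a (b - 2 * R) b'
        · exact ⟨v, hv1, hv2.trans (Adj.reach ⟨ε, ⟨hεF, hl⟩, hcase⟩)⟩
        · obtain ⟨hlow, hεb⟩ := below (by omega) hεR hl
          have hxx : Reach (↑F ∩ ↑(RE 0 a 0 b)) x x' := Adj.reach ⟨ε, ⟨hεF, hεb⟩, hcase⟩
          have hxs : Reach (↑F ∩ ↑(RE 0 a 0 b)) x (src ε) := by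
            rcases hcase with ⟨h1, -⟩ | ⟨h1, -⟩
            · rw [h1]; exact Reach.refl _ _
            · rw [h1]; exact hxx
          by_cases hB : Big (↑F ∩ ↑(RE 0 a 0 b)) (2 * R) x
          · exact ⟨x', (no_join ha hbb hR hNM hu hB hux).trans hxx, Reach.refl _ _⟩
          · have := closed_off hB hxs hlow (Reach.symm hux)
            exact ⟨x', this.symm.trans hxx, Reach.refl _ _⟩
    obtain ⟨v, hv1, hv2⟩ := key
    exact ⟨v, hv1, hNL v z hv2⟩
  · intro v hv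
    by_contra hcon
    push Not at hcon
    obtain ⟨z, z', hz, hz', ho⟩ := hv
    by_cases hx : ∃ x, Reach (↑F ∩ ↑(RE 0 a 0 b')) v x ∧ x.2 < b - 2 * R
    · obtain ⟨x, hvx, hxl⟩ := hx
      have hB := hcon x hvx
      have h1 := closed_off hB (Reach.refl _ _) hxl (hvx.symm.trans hz)
      have h2 := closed_off hB (Reach.refl _ _) hxl (hvx.symm.trans hz')
      exact hB ⟨z, z', h1, h2, ho.anti hD⟩
    · push Not at hx
      have hlay : ∀ w, Reach (↑F ∩ ↑(RE 0 a 0 b')) z w →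
          Reach (↑F ∩ ↑(RE 0 a (b - 2 * R) b')) z w := by
        intro w hw
        induction hw with
        | refl => exact Reach.refl _ _
        | @tail w w' hzw hs ih =>
          obtain ⟨ε, ⟨hεF, hεR⟩, hcase⟩ := hs
          refine ih.trans (Adj.reach ⟨ε, ⟨hεF, ?_⟩, hcase⟩)
          by_contra hl
          obtain ⟨hlow, -⟩ := below (by omega) hεR hl
          have hww : Reach (↑F ∩ ↑(RE 0 a 0 b')) w w' := Adj.reach ⟨ε, ⟨hεF, hεR⟩, hcase⟩
          have hs : Reach (↑F ∩ ↑(RE 0 a 0 b')) v (src ε) := by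
            rcases hcase with ⟨h1, -⟩ | ⟨h1, -⟩
            · rw [h1]; exact hz.trans hzw
            · rw [h1]; exact hz.trans (hzw.trans hww)
          exact absurd hlow (not_lt.mpr (hx _ hs))
      exact hNL z z' (hlay z' (hz.symm.trans hz')) ho

/-- Composition of two stages. -/
theorem StG.comp {G0 G1 G2 : Set Edg} {L Dd : ℤ} (hL : 0 ≤ L) (hD : L ≤ Dd) (h01 : G0 ⊆ G1)
    (h12 : G1 ⊆ G2) (h1 : StG G0 G1 L Dd) (h2 : StG G1 G2 L Dd) :
    (∀ u v, Big G0 L u → Big G0 L v → Reach G2 u v → Reach G0 u v) ∧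
    (∀ u z, Big G0 L u → Reach G2 u z → ∃ v, Reach G0 u v ∧ ¬ Out v (2 * Dd) z) ∧
    (∀ v, Big G2 (3 * Dd) v → ∃ x, Reach G2 v x ∧ Big G0 L x) := by
  obtain ⟨a1, a2, a3⟩ := h1
  obtain ⟨b1, b2, b3⟩ := h2
  refine ⟨fun u v hu hv h => a1 u v hu hv (b1 u v (hu.mono h01) (hv.mono h01) h), ?_, ?_⟩
  · intro u z hu hz
    obtain ⟨v', h3, h4⟩ := b2 u z (hu.mono h01) hz
    obtain ⟨v, h5, h6⟩ := a2 u v' hu h3
    refine ⟨v, h5, ?_⟩
    simp only [Out] at h4 h6 ⊢
    omega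
  · rintro v ⟨z, z', hz, hz', ho⟩
    obtain ⟨x, hx1, hx2⟩ := b3 v ⟨z, z', hz, hz', ho.anti (by omega)⟩
    obtain ⟨y, hy1, hy2⟩ := b2 x z hx2 (hx1.symm.trans hz)
    obtain ⟨y', hy1', hy2'⟩ := b2 x z' hx2 (hx1.symm.trans hz')
    obtain ⟨w, hw1, hw2⟩ := a3 x ⟨y, y', hy1, hy1', by simp only [Out] at ho hy2 hy2' ⊢; omega⟩
    exact ⟨w, hx1.trans (hw1.mono h12), hw2⟩

end H99L
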