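import Pool.Agent.H99.MS.Stage

/-!
The probability that a stage fails.
-/

set_option maxHeartbeats 400000

namespace H99L

open Finset

theorem topDom {a b' x y r : ℤ} (hr : 0 ≤ r) (he : ((x, y, true) : Edg) ∈ RE 0 a 0 b')
    (h1 : r ≤ x) (h2 : x + r ≤ a) (h3 : r ≤ y) :
    TopDom (Dom a b' (keyE (a + 1) (x, y, true))) x y r := by
  rw [mem_RE_true] at he
  have hM : 0 < a + 1 := by omega
  constructor
  · intro x' y' h hy
    rw [mem_RE_false] at h
    refine ⟨by rw [mem_RE_false]; omega, ?_⟩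
    rw [keyE_false, keyE_true, lex_lt hM (by omega) he.1 (by omega) (by omega)]
    omega
  · intro x' y' h hy
    rw [mem_RE_true] at h
    refine ⟨by rw [mem_RE_true]; omega, ?_⟩
    rw [keyE_true, keyE_true, lex_lt hM (by omega) he.1 (by omega) (by omega)]
    omega
  · rintro x' y' hy ⟨h, h'⟩
    rw [mem_RE_false] at h
    rw [keyE_false, keyE_true, lex_lt hM (by omega) he.1 (by omega) (by omega)] at h'
    omega
  · rintro x' y' hy ⟨h, h'⟩
    rw [mem_RE_true] at h
    rw [keyE_true, keyE_true, lex_lt hM (by omega) he.1 (by omega) (by omega)] at h'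
    omega
  · rintro x' hx ⟨h, h'⟩
    rw [mem_RE_true] at h
    rw [keyE_true, keyE_true, lex_lt hM (by omega) he.1 (by omega) (by omega)] at h'
    omega

theorem stageP {a b w k K R j s : ℕ} {Dd : ℤ} (hk : 5 ≤ k)
    (hR : (5 * k + 3 + w) * 3^K + (5 * k + 3 + w) ≤ R) (hb : 2 * R ≤ b) (hj : 1 ≤ j)
    (hs : s = j * (w + 2 * R + 2)) (hD : 2 * (s : ℤ) ≤ Dd) {S : Finset Edg}
    (hS : RE 0 a 0 (b + w : ℕ) ⊆ S) :
    Pr hf S (fun F => ¬ StG (↑F ∩ ↑(RE 0 a 0 b)) (↑F ∩ ↑(RE 0 a 0 (b + w : ℕ))) (2 * R) Dd) ≤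
      w * a * (N2 / (k : ℝ)^2) + 2 * lam^K + ((a : ℝ) / s + 1) * (1/2)^j := by
  classical
  set r : ℕ := 5 * k + 3 with hr
  set b' : ℤ := ((b + w : ℕ) : ℤ) with hb'
  have hbb' : b' = b + w := by rw [hb']; push_cast; ring
  have hrR : r + w ≤ R := by
    have : 0 ≤ (r + w) * 3^K := Nat.zero_le _
    omega
  have hs' : (s : ℤ) = j * (b' - (b - 2 * R) + 2) := by
    rw [hs, hbb']; push_cast; ring
  have hDs : b' - (b - 2 * R) + 2 ≤ Dd := by
    have h1 : (1 : ℤ) * (b' - (b - 2 * R) + 2) ≤ j * (b' - (b - 2 * R) + 2) :=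
      mul_le_mul_of_nonneg_right (by exact_mod_cast hj) (by omega)
    omega
  set E1 : Finset Edg → Prop := fun F => ∃ p ∈ (Finset.Ico (0 : ℤ) a) ×ˢ (Finset.Ioc (b : ℤ) b'),
    ((r : ℤ) ≤ p.1 ∧ p.1 + r ≤ a) ∧ ((p.1, p.2, true) : Edg) ∈ F ∧
      MG (Dom a b' (keyE ((a : ℤ) + 1) (p.1, p.2, true))) R (p.1, p.2, true) F with hE1
  set A : Vtx → Finset Edg → Prop := fun c F => ∃ u v, In c (r + w : ℕ) u ∧
    Out c ((r + w) * 3^K : ℕ) v ∧ Reach (↑F) u v with hA
  have hmain : ∀ F, F ⊆ S → ¬ StG (↑F ∩ ↑(RE 0 a 0 b)) (↑F ∩ ↑(RE 0 a 0 b')) (2 * R) Dd →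
      (E1 F ∨ (A (0, b) F ∨ A (a, b) F)) ∨ LongP a (b - 2 * R) b' Dd F := by
    intro F _ hF
    by_contra hcon
    push Not at hcon
    obtain ⟨⟨hn1, hn2, hn3⟩, hn4⟩ := hcon
    apply hF
    apply stage_det (by positivity) (by omega) (by omega) (by omega)
    · intro x y hy hxF hxR hMG
      rw [mem_RE_true] at hxR
      by_cases hgood : (r : ℤ) ≤ x ∧ x + r ≤ a
      · apply hn1
        refine ⟨(x, y), ?_, hgood, hxF, hMG⟩
        rw [Finset.mem_product, Finset.mem_Ico, Finset.mem_Ioc]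
        simp only
        omega
      · obtain ⟨-, ⟨z, hz, hrz⟩, -⟩ := hMG
        rw [src_mk] at hz hrz
        have hreach : Reach (↑F) (x, y) z := hrz.mono Set.inter_subset_left
        have hRc : (((r + w) * 3^K : ℕ) : ℤ) + ((r + w : ℕ) : ℤ) ≤ R := by exact_mod_cast hR
        by_cases hx : x < r
        · apply hn2
          refine ⟨(x, y), z, ?_, ?_, hreach⟩
          · simp only [In]; push_cast; omega
          · simp only [Out] at hz ⊢
            push_cast at hRc ⊢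
            omega
        · apply hn3
          refine ⟨(x, y), z, ?_, ?_, hreach⟩
          · simp only [In]; push_cast; omega
          · simp only [Out] at hz ⊢
            push_cast at hRc ⊢
            omega
    · intro u v hr ho
      have hne : u ≠ v := by
        rintro rfl
        simp only [Out] at ho
        omega
      have hend : ∀ u v : Vtx, Reach (↑F ∩ ↑(RE 0 a (b - 2 * R) b')) u v → u ≠ v →
          (b : ℤ) - 2 * R ≤ u.2 ∧ u.2 ≤ b' := by
        intro u v hr hne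
        rcases Relation.ReflTransGen.cases_head hr with h | ⟨z, ⟨e, he, hc⟩, -⟩
        · exact absurd h hne
        · obtain ⟨h1, h2⟩ := RE_ends he.2
          rcases hc with ⟨h3, -⟩ | ⟨-, h3⟩
          · rw [← h3]; simp only [inR] at h1; omega
          · rw [← h3]; simp only [inR] at h2; omega
      have h1 := hend u v hr hne
      have h2 := hend v u hr.symm hne.symm
      simp only [Out] at ho
      apply hn4
      by_cases huv : u.1 + Dd ≤ v.1
      · exact ⟨u, v, hr, huv⟩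
      · exact ⟨v, u, hr.symm, by omega⟩
  have p1 : Pr hf S E1 ≤ w * a * (N2 / (k : ℝ)^2) := by
    refine (Pr_exists_le okh S _ (fun (p : ℤ × ℤ) F => ((r : ℤ) ≤ p.1 ∧ p.1 + r ≤ a) ∧
      ((p.1, p.2, true) : Edg) ∈ F ∧
      MG (Dom a b' (keyE ((a : ℤ) + 1) (p.1, p.2, true))) R (p.1, p.2, true) F)).trans ?_
    have hterm : ∀ p ∈ (Finset.Ico (0 : ℤ) a) ×ˢ (Finset.Ioc (b : ℤ) b'),
        Pr hf S (fun F => ((r : ℤ) ≤ p.1 ∧ p.1 + r ≤ a) ∧ ((p.1, p.2, true) : Edg) ∈ F ∧
          MG (Dom a b' (keyE ((a : ℤ) + 1) (p.1, p.2, true))) R (p.1, p.2, true) F) ≤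
          N2 / (k : ℝ)^2 := by
      rintro ⟨x, y⟩ hp
      rw [Finset.mem_product, Finset.mem_Ico, Finset.mem_Ioc] at hp
      simp only at hp ⊢
      by_cases hgood : (r : ℤ) ≤ x ∧ x + r ≤ a
      · have heR : ((x, y, true) : Edg) ∈ RE 0 (a : ℤ) 0 b' := by rw [mem_RE_true]; omega
        have hT := topDom (r := r) (by positivity) heR hgood.1 hgood.2 (by omega)
        have h1 := mg_prob (R := R) hk hT (by rw [hr]; push_cast; omega) (by omega) (S := S)
          (fun e he => hS he.1) (hS heR)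
        refine (Pr_mono okh ?_).trans h1
        rintro F _ ⟨_, h⟩
        exact h
      · have : Pr hf S (fun F => ((r : ℤ) ≤ x ∧ x + r ≤ a) ∧ ((x, y, true) : Edg) ∈ F ∧
          MG (Dom a b' (keyE ((a : ℤ) + 1) (x, y, true))) R (x, y, true) F) = 0 := by
          unfold Pr
          rw [Ex_congr (g := fun _ => 0) (fun F _ => ind_not_of (fun h => hgood h.1)), Ex_const]
        rw [this]
        have := N2_pos
        positivity
    refine (Finset.sum_le_sum hterm).trans ?_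
    rw [Finset.sum_const, nsmul_eq_mul, Finset.card_product, Int.card_Ico, Int.card_Ioc]
    have e1 : ((a : ℤ) - 0).toNat = a := by omega
    have e2 : (b' - (b : ℤ)).toNat = w := by omega
    rw [e1, e2]
    push_cast
    rw [mul_comm (a : ℝ) w]
  have p2 : ∀ c, Pr hf S (A c) ≤ lam^K := fun c => annK S c (by omega) K
  have p3 : Pr hf S (LongP a (b - 2 * R) b' Dd) ≤ ((a : ℝ) / s + 1) * (1/2)^j := by
    apply longP a (by omega) _ hj hs' hD
    refine Finset.Subset.trans (RE_subset le_rfl le_rfl (by omega) le_rfl) hS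
  calc Pr hf S (fun F => ¬ StG (↑F ∩ ↑(RE 0 a 0 b)) (↑F ∩ ↑(RE 0 a 0 b')) (2 * R) Dd)
      ≤ Pr hf S (fun F => (E1 F ∨ (A (0, b) F ∨ A (a, b) F)) ∨ LongP a (b - 2 * R) b' Dd F) :=
        Pr_mono okh hmain
    _ ≤ Pr hf S (fun F => E1 F ∨ (A (0, b) F ∨ A (a, b) F)) +
        Pr hf S (LongP a (b - 2 * R) b' Dd) := Pr_or_le okh S _ _
    _ ≤ (Pr hf S E1 + Pr hf S (fun F => A (0, b) F ∨ A (a, b) F)) +
        Pr hf S (LongP a (b - 2 * R) b' Dd) := by
        gcongr
        exact Pr_or_le okh S _ _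
    _ ≤ (Pr hf S E1 + (Pr hf S (A (0, b)) + Pr hf S (A (a, b)))) +
        Pr hf S (LongP a (b - 2 * R) b' Dd) := by
        gcongr
        exact Pr_or_le okh S _ _
    _ ≤ w * a * (N2 / (k : ℝ)^2) + 2 * lam^K + ((a : ℝ) / s + 1) * (1/2)^j := by
        have := p2 (0, b)
        have := p2 (a, b)
        linarith

end H99L
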