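import Pool.Agent.H99.MS.StageP

/-!
From the square of side `n` to the square of side `n + w`.
-/

set_option maxHeartbeats 400000

namespace H99L

open Finset

theorem out_tps {z z' : Vtx} {L : ℤ} : Out (tps.ψ z) L (tps.ψ z') ↔ Out z L z' := by
  obtain ⟨x, y⟩ := z
  obtain ⟨x', y'⟩ := z'
  simp only [tps_ψ, Out]
  omega

theorem big_tps {G : Set Edg} {L : ℤ} {u : Vtx} :
    Big (tps.φ '' G) L (tps.ψ u) ↔ Big G L u := by
  constructor
  · rintro ⟨z, z', h1, h2, h3⟩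
    obtain ⟨y, rfl⟩ := tps.ψ.surjective z
    obtain ⟨y', rfl⟩ := tps.ψ.surjective z'
    exact ⟨y, y', tps.reach_iff.mp h1, tps.reach_iff.mp h2, out_tps.mp h3⟩
  · rintro ⟨z, z', h1, h2, h3⟩
    exact ⟨_, _, tps.reach h1, tps.reach h2, out_tps.mpr h3⟩

theorem StG_tps {G0 G1 : Set Edg} {L Dd : ℤ} (h : StG (tps.φ '' G0) (tps.φ '' G1) L Dd) :
    StG G0 G1 L Dd := by
  obtain ⟨h1, h2, h3⟩ := h
  refine ⟨?_, ?_, ?_⟩
  · intro u v hu hv huv
    exact tps.reach_iff.mp (h1 _ _ (big_tps.mpr hu) (big_tps.mpr hv) (tps.reach huv))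
  · intro u z hu hz
    obtain ⟨v, h4, h5⟩ := h2 _ _ (big_tps.mpr hu) (tps.reach hz)
    obtain ⟨v, rfl⟩ := tps.ψ.surjective v
    exact ⟨v, tps.reach_iff.mp h4, fun h => h5 (out_tps.mpr h)⟩
  · intro v hv
    obtain ⟨x, h4, h5⟩ := h3 _ (big_tps.mpr hv)
    obtain ⟨x, rfl⟩ := tps.ψ.surjective x
    exact ⟨x, tps.reach_iff.mp h4, big_tps.mp h5⟩

/-- The clusters before and after. -/
def Nest (G0 G2 : Set Edg) (L Dd : ℤ) : Prop :=
  (∀ u v, Big G0 L u → Big G0 L v → Reach G2 u v → Reach G0 u v) ∧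
  (∀ u z, Big G0 L u → Reach G2 u z → ∃ v, Reach G0 u v ∧ ¬ Out v (2 * Dd) z) ∧
  (∀ v, Big G2 (3 * Dd) v → ∃ x, Reach G2 v x ∧ Big G0 L x)

theorem twoP {n w k K R j s : ℕ} {Dd : ℤ} (hk : 5 ≤ k)
    (hR : (5 * k + 3 + w) * 3^K + (5 * k + 3 + w) ≤ R) (hb : 2 * R ≤ n) (hj : 1 ≤ j)
    (hs : s = j * (w + 2 * R + 2)) (hD : 2 * (s : ℤ) ≤ Dd) :
    Pr hf (RE 0 (n + w : ℕ) 0 (n + w : ℕ))
      (fun F => ¬ Nest (↑F ∩ ↑(RE 0 n 0 n)) (↑F) (2 * R) Dd) ≤
      2 * (w * (n + w : ℕ) * (N2 / (k : ℝ)^2) + 2 * lam^K +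
        (((n + w : ℕ) : ℝ) / s + 1) * (1/2)^j) := by
  classical
  set m : ℕ := n + w with hm
  have hmn : (n : ℤ) ≤ m := by rw [hm]; push_cast; omega
  set S : Finset Edg := RE 0 (m : ℤ) 0 m with hS
  have hDR : 2 * (R : ℤ) ≤ Dd := by
    have h1 : 1 * (w + 2 * R + 2) ≤ j * (w + 2 * R + 2) := Nat.mul_le_mul_right _ hj
    omega
  have p1 := stageP (a := n) (b := n) (w := w) (K := K) (R := R) (j := j) (s := s) (Dd := Dd) hk hR
    hb hj hs hD (S := S) (by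
      rw [← hm]
      exact RE_subset le_rfl hmn le_rfl le_rfl)
  have p2 := stageP (a := m) (b := n) (w := w) (K := K) (R := R) (j := j) (s := s) (Dd := Dd) hk hR
    hb hj hs hD (S := S) (by rw [← hm])
  rw [← hm] at p1 p2
  have e1 : Pr hf S (fun F => ¬ StG (↑F ∩ ↑(RE 0 (n : ℤ) 0 (m : ℤ))) (↑F ∩ ↑(RE 0 (m : ℤ) 0 (m : ℤ)))
      (2 * R) Dd) ≤ Pr hf S (fun F => ¬ StG (↑F ∩ ↑(RE 0 (m : ℤ) 0 (n : ℤ)))
        (↑F ∩ ↑(RE 0 (m : ℤ) 0 (m : ℤ))) (2 * R) Dd) := by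
    have e2 : Pr hf S (fun F => ¬ StG (↑F ∩ ↑(RE 0 (m : ℤ) 0 (n : ℤ)))
        (↑F ∩ ↑(RE 0 (m : ℤ) 0 (m : ℤ))) (2 * R) Dd) =
        Pr hf S (fun F => ¬ StG (↑(tps.mp F) ∩ ↑(RE 0 (m : ℤ) 0 (n : ℤ)))
        (↑(tps.mp F) ∩ ↑(RE 0 (m : ℤ) 0 (m : ℤ))) (2 * R) Dd) := by
      have e3 : S = tps.mp S := by rw [hS, tps_RE]
      conv_lhs => rw [e3]
      exact LSym.pr _ _ _ _
    rw [e2]
    apply Pr_mono okh
    intro F _ h1 h2
    apply h1
    apply StG_tps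
    rw [LSym.image_inter, LSym.image_inter, tps_RE, tps_RE]
    exact h2
  have hc : ∀ F, F ⊆ S → ¬ Nest (↑F ∩ ↑(RE 0 n 0 n)) (↑F) (2 * R) Dd →
      ¬ StG (↑F ∩ ↑(RE 0 (n : ℤ) 0 (n : ℤ))) (↑F ∩ ↑(RE 0 (n : ℤ) 0 (m : ℤ))) (2 * R) Dd ∨
      ¬ StG (↑F ∩ ↑(RE 0 (n : ℤ) 0 (m : ℤ))) (↑F ∩ ↑(RE 0 (m : ℤ) 0 (m : ℤ))) (2 * R) Dd := by
    intro F hF h
    by_contra hcon
    push Not at hcon
    apply h
    have h1 := StG.comp (by positivity) hDR
      (Set.inter_subset_inter_right _ (by exact_mod_cast RE_subset le_rfl le_rfl le_rfl hmn))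
      (Set.inter_subset_inter_right _ (by exact_mod_cast RE_subset le_rfl hmn le_rfl le_rfl))
      hcon.1 hcon.2
    have h2 : (↑F ∩ ↑(RE 0 (m : ℤ) 0 (m : ℤ)) : Set Edg) = ↑F := by
      apply Set.inter_eq_left.mpr
      exact_mod_cast hF
    rw [h2] at h1
    exact h1
  have h3 := (Pr_mono okh hc).trans (Pr_or_le okh S _ _)
  have hN := N2_pos
  have h4 : (w : ℝ) * n * (N2 / (k : ℝ)^2) ≤ w * m * (N2 / (k : ℝ)^2) := by
    have : (n : ℝ) ≤ m := by exact_mod_cast hmn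
    gcongr
  have h5 : ((n : ℝ) / s + 1) * (1/2)^j ≤ ((m : ℝ) / s + 1) * (1/2)^j := by
    have : (n : ℝ) ≤ m := by exact_mod_cast hmn
    gcongr
  refine h3.trans ?_
  linarith [p1, p2.trans' e1]

/-- Crude bound for powers of two. -/
theorem sq_le_two_pow (j : ℕ) : j^2 ≤ 2 * 2^j := by
  induction j with
  | zero => simp
  | succ j ih =>
    by_cases h : j < 3
    · interval_cases j <;> norm_num
    · have : (j + 1)^2 ≤ 2 * j^2 := by nlinarith
      calc (j + 1)^2 ≤ 2 * j^2 := this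
        _ ≤ 2 * (2 * 2^j) := Nat.mul_le_mul_left _ ih
        _ = 2 * 2^(j + 1) := by ring

/-- The constant. -/
noncomputable def CN : ℝ := 4 * N2 + 40

/-- Nestedness with explicit dependence on the relative increase of the side. -/
theorem nestP {n w : ℕ} {η : ℝ} (hη : 0 < η) (hη1 : η ≤ 1/100) (hn : ((w : ℝ) + 1) ≤ η^16 * n) :
    ∃ R : ℕ, ∃ Dd : ℤ, 1 ≤ R ∧ 2 * (R : ℤ) ≤ Dd ∧ (Dd : ℝ) ≤ 200 * η * n ∧
      Pr hf (RE 0 (n + w : ℕ) 0 (n + w : ℕ))
      (fun F => ¬ Nest (↑F ∩ ↑(RE 0 n 0 n)) (↑F) (2 * R) Dd) ≤ CN * η^cz := by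
  have hN2 := N2_pos
  set N : ℝ := (n : ℝ) with hN
  have hw0 : (0 : ℝ) ≤ w := Nat.cast_nonneg _
  have hN0 : 0 < N := by
    by_contra h
    push Not at h
    have : η^16 * N ≤ 0 := mul_nonpos_of_nonneg_of_nonpos (by positivity) h
    linarith
  set y : ℝ := η^4 * N with hy
  have hη12 : η^12 ≤ 1/100 := by
    calc η^12 ≤ η^1 := pow_le_pow_of_le_one hη.le (by linarith) (by norm_num)
      _ = η := pow_one _
      _ ≤ 1/100 := hη1
  have hyw : (w : ℝ) + 1 ≤ y / 100 := by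
    calc (w : ℝ) + 1 ≤ η^16 * N := hn
      _ = η^12 * y := by rw [hy]; ring
      _ ≤ 1/100 * y := by
          apply mul_le_mul_of_nonneg_right hη12
          positivity
      _ = y / 100 := by ring
  have hy100 : 100 ≤ y := by linarith
  set k : ℕ := ⌈y⌉₊ with hk
  have k1 : y ≤ k := Nat.le_ceil _
  have k2 : (k : ℝ) ≤ y + 1 := (Nat.ceil_lt_add_one (by positivity)).le
  have k5 : 5 ≤ k := by
    have : (5 : ℝ) ≤ k := by linarith
    exact_mod_cast this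
  set X : ℝ := (η^2)⁻¹ with hX
  have hX0 : 0 < X := by positivity
  have hη2 : η^2 ≤ 1/10000 := by nlinarith
  have hX1 : 10000 ≤ X := by
    rw [hX]
    calc (10000 : ℝ) = (1/10000)⁻¹ := by norm_num
      _ ≤ (η^2)⁻¹ := inv_anti₀ (by positivity) hη2
  obtain ⟨K, hK1, hK2⟩ := exists_nat_pow_near (x := X) (y := 3) (by linarith) (by norm_num)
  set q : ℕ := 5 * k + 3 + w with hq
  have q1 : 5 * y ≤ q := by rw [hq]; push_cast; linarith
  have q2 : (q : ℝ) ≤ 6 * y := by rw [hq]; push_cast; linarith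
  set R : ℕ := q * 3^K + q with hR
  have hyX : y * X = η^2 * N := by
    rw [hy, hX]
    field_simp
  have R1 : (R : ℝ) ≤ 7 * (η^2 * N) := by
    rw [← hyX, hR]
    push_cast
    have h1 : (q : ℝ) * 3^K ≤ 6 * y * X := mul_le_mul q2 hK1 (by positivity) (by positivity)
    have h2 : 6 * y ≤ y * X := by nlinarith
    linarith
  have R2 : (5 / 3) * (η^2 * N) ≤ R := by
    rw [← hyX, hR]
    push_cast
    have h0 : X / 3 ≤ 3^K := by
      rw [pow_succ] at hK2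
      linarith
    have h1 : 5 * y * (X / 3) ≤ (q : ℝ) * 3^K := mul_le_mul q1 h0 (by positivity) (by positivity)
    have h2 : (0 : ℝ) ≤ q := by positivity
    linarith
  have hb : 2 * R ≤ n := by
    have h1 : (2 : ℝ) * R ≤ N := by
      calc (2 : ℝ) * R ≤ 2 * (7 * (η^2 * N)) := by linarith
        _ = 14 * η^2 * N := by ring
        _ ≤ 1 * N := by
            apply mul_le_mul_of_nonneg_right _ hN0.le
            linarith
        _ = N := one_mul _
    rw [hN] at h1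
    exact_mod_cast h1
  set j : ℕ := ⌈η⁻¹⌉₊ with hj
  have j1 : η⁻¹ ≤ j := Nat.le_ceil _
  have j2 : (j : ℝ) ≤ η⁻¹ + 1 := (Nat.ceil_lt_add_one (by positivity)).le
  have hi : 100 ≤ η⁻¹ := by
    calc (100 : ℝ) = (1/100)⁻¹ := by norm_num
      _ ≤ η⁻¹ := inv_anti₀ hη hη1
  have hj1 : 1 ≤ j := by
    have : (1 : ℝ) ≤ j := by linarith
    exact_mod_cast this
  set s : ℕ := j * (w + 2 * R + 2) with hs
  have hηN : η^2 * N * η⁻¹ = η * N := by
    field_simp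
  have hw2 : (w : ℝ) + 2 ≤ 2 * (η^2 * N) := by
    have h1 : η^16 * N ≤ η^2 * N := by
      apply mul_le_mul_of_nonneg_right _ hN0.le
      exact pow_le_pow_of_le_one hη.le (by linarith) (by norm_num)
    have h2 : (1 : ℝ) ≤ η^2 * N := by linarith
    linarith
  have s2 : (s : ℝ) ≤ 100 * (η * N) := by
    rw [hs, ← hηN]
    push_cast
    have h1 : (w : ℝ) + 2 * R + 2 ≤ 16 * (η^2 * N) := by linarith
    have h2 : (j : ℝ) ≤ 2 * η⁻¹ := by linarith
    have h3 : (j : ℝ) * (w + 2 * R + 2) ≤ 2 * η⁻¹ * (16 * (η^2 * N)) :=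
      mul_le_mul h2 h1 (by positivity) (by positivity)
    have h4 : 2 * η⁻¹ * (16 * (η^2 * N)) = 32 * (η^2 * N * η⁻¹) := by ring
    have h5 : 0 ≤ η^2 * N * η⁻¹ := by positivity
    linarith
  have s1 : 3 * (η * N) ≤ s := by
    rw [hs, ← hηN]
    push_cast
    have h1 : (10 / 3) * (η^2 * N) ≤ (w : ℝ) + 2 * R + 2 := by linarith
    have h3 : η⁻¹ * ((10 / 3) * (η^2 * N)) ≤ (j : ℝ) * (w + 2 * R + 2) :=
      mul_le_mul j1 h1 (by positivity) (by positivity)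
    have h4 : η⁻¹ * ((10 / 3) * (η^2 * N)) = (10 / 3) * (η^2 * N * η⁻¹) := by ring
    have h5 : 0 ≤ η^2 * N * η⁻¹ := by positivity
    linarith
  have hRs : 2 * R ≤ 2 * s := by
    have h1 : 1 * (w + 2 * R + 2) ≤ j * (w + 2 * R + 2) := Nat.mul_le_mul_right _ hj1
    omega
  refine ⟨R, (2 * s : ℕ), ?_, by exact_mod_cast hRs, ?_, ?_⟩
  · have : 0 < q := by omega
    omega
  · push_cast
    linarith
  · refine (twoP (n := n) (w := w) (k := k) (K := K) (R := R) (j := j) (s := s) k5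
      (le_refl _) hb hj1 hs (by push_cast; omega)).trans ?_
    have hηcz : η ≤ η^cz := by
      calc η = η^(1 : ℝ) := (Real.rpow_one _).symm
        _ ≤ η^cz := Real.rpow_le_rpow_of_exponent_ge hη (by linarith) cz_le
    have hnw : ((n + w : ℕ) : ℝ) ≤ 2 * N := by
      push_cast
      have : (w : ℝ) ≤ N := by
        have h1 : η^16 * N ≤ 1 * N := by
          apply mul_le_mul_of_nonneg_right _ hN0.le
          exact pow_le_one₀ hη.le (by linarith)
        linarith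
      linarith
    have t1 : (w : ℝ) * (n + w : ℕ) * (N2 / (k : ℝ)^2) ≤ 2 * N2 * η^cz := by
      have h1 : (w : ℝ) * (n + w : ℕ) ≤ (η^16 * N) * (2 * N) :=
        mul_le_mul (by linarith) hnw (by positivity) (by positivity)
      have h2 : N2 / (k : ℝ)^2 ≤ N2 / y^2 := by
        apply div_le_div_of_nonneg_left hN2.le (by positivity)
        gcongr
      have h3 : (w : ℝ) * (n + w : ℕ) * (N2 / (k : ℝ)^2) ≤ (η^16 * N) * (2 * N) * (N2 / y^2) :=
        mul_le_mul h1 h2 (by positivity) (by positivity)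
      have h4 : (η^16 * N) * (2 * N) * (N2 / y^2) = 2 * N2 * η^8 := by
        rw [hy]
        field_simp
      have h5 : η^8 ≤ η^cz := by
        calc η^8 ≤ η^1 := pow_le_pow_of_le_one hη.le (by linarith) (by norm_num)
          _ = η := pow_one _
          _ ≤ η^cz := hηcz
      rw [h4] at h3
      refine h3.trans ?_
      exact mul_le_mul_of_nonneg_left h5 (by positivity)
    have t2 : lam^K ≤ η^cz := by
      refine (lam_pow hX0 hK2).trans ?_
      apply Real.rpow_le_rpow (by positivity) _ cz_pos.le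
      rw [hX, div_inv_eq_mul]
      nlinarith
    have t3 : (((n + w : ℕ) : ℝ) / s + 1) * (1/2)^j ≤ 2 * η^cz := by
      have h0 : 0 < 3 * (η * N) := by positivity
      have h1 : ((n + w : ℕ) : ℝ) / s ≤ 2 * N / (3 * (η * N)) :=
        div_le_div₀ (by positivity) hnw h0 s1
      have h2 : 2 * N / (3 * (η * N)) = (2 / 3) * η⁻¹ := by
        field_simp
      have h3 : ((n + w : ℕ) : ℝ) / s + 1 ≤ η⁻¹ := by
        rw [h2] at h1
        linarith
      have h4 : (1/2 : ℝ)^j ≤ 2 * η^2 := by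
        have h5 : (j : ℝ)^2 ≤ 2 * 2^j := by exact_mod_cast sq_le_two_pow j
        have h6 : (η⁻¹)^2 ≤ (j : ℝ)^2 := by gcongr
        have h7 : (η⁻¹)^2 ≤ 2 * 2^j := h6.trans h5
        rw [one_div, inv_pow, inv_le_iff_one_le_mul₀ (by positivity)]
        have h8 : η^2 * (η⁻¹)^2 = 1 := by
          rw [← mul_pow, mul_inv_cancel₀ hη.ne', one_pow]
        calc (1 : ℝ) = η^2 * (η⁻¹)^2 := h8.symm
          _ ≤ η^2 * (2 * 2^j) := mul_le_mul_of_nonneg_left h7 (by positivity)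
          _ = 2 * η^2 * 2^j := by ring
      have h5 : (((n + w : ℕ) : ℝ) / s + 1) * (1/2)^j ≤ η⁻¹ * (2 * η^2) :=
        mul_le_mul h3 h4 (by positivity) (by positivity)
      have h6 : η⁻¹ * (2 * η^2) = 2 * η := by field_simp
      rw [h6] at h5
      linarith
    unfold CN
    have : 0 ≤ η^cz := by positivity
    linarith

end H99L
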